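import Pool.Agent.W753.CZ.Smooth

set_option autoImplicit false

open MeasureTheory Set Filter Topology

namespace Pool.Agent.V110.QN

open Pool.Agent.W753.CZ

theorem sin_near (x : ℝ) (hx : |x| ≤ 1) : |Real.sin x - x| ≤ x ^ 2 := by
  have h := Real.sin_bound hx
  have h1 : |Real.sin x - x| ≤ |Real.sin x - (x - x ^ 3 / 6)| + |x ^ 3 / 6| := by
    calc |Real.sin x - x| = |(Real.sin x - (x - x ^ 3 / 6)) + (-(x ^ 3 / 6))| := by ring_nf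
      _ ≤ |Real.sin x - (x - x ^ 3 / 6)| + |-(x ^ 3 / 6)| := abs_add_le _ _
      _ = _ := by rw [abs_neg]
  have h2 : |x ^ 3 / 6| = |x| ^ 3 / 6 := by rw [abs_div, abs_pow]; norm_num
  have h3 : |x| ^ 4 ≤ |x| ^ 2 := pow_le_pow_of_le_one (abs_nonneg _) hx (by norm_num)
  have h4 : |x| ^ 3 ≤ |x| ^ 2 := pow_le_pow_of_le_one (abs_nonneg _) hx (by norm_num)
  have h5 : |x| ^ 2 = x ^ 2 := sq_abs x
  nlinarith [sq_nonneg x]

/-- quadratic expansion -/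
theorem quad_exp (h τ : ℝ → ℝ) (S R0 : ℝ) (hS : ∀ φ, |h φ| ≤ S) (hT : ∀ φ, |τ φ| ≤ S)
    (P1 : ∀ φ ψ, h φ * Real.cos (ψ - φ) + τ φ * Real.sin (ψ - φ) ≤ h ψ)
    (hR0 : 0 ≤ R0)
    (P2 : ∀ φ ψ, h ψ ≤ h φ * Real.cos (ψ - φ) + τ φ * Real.sin (ψ - φ)
      + R0 * (1 - Real.cos (ψ - φ)))
    (φ ψ : ℝ) (hd : |ψ - φ| ≤ 1) :
    |h ψ - h φ - τ φ * (ψ - φ)| ≤ (2 * S + R0) * (ψ - φ) ^ 2 := by
  set d := ψ - φ with hdd
  have h1 := P1 φ ψ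
  have h2 := P2 φ ψ
  rw [← hdd] at h1 h2
  have hs := sin_near d hd
  have hc1 := Real.one_sub_sq_div_two_le_cos (x := d)
  have hc2 := Real.cos_le_one d
  have e1 : |h φ * (Real.cos d - 1)| ≤ S * (d ^ 2 / 2) := by
    rw [abs_mul]
    apply mul_le_mul (hS φ) _ (abs_nonneg _) ((abs_nonneg _).trans (hS φ))
    rw [abs_le]; constructor <;> linarith [sq_nonneg d]
  have e2 : |τ φ * (Real.sin d - d)| ≤ S * d ^ 2 := by
    rw [abs_mul]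
    exact mul_le_mul (hT φ) hs (abs_nonneg _) ((abs_nonneg _).trans (hT φ))
  have e3 : R0 * (1 - Real.cos d) ≤ R0 * (d ^ 2 / 2) := by gcongr; linarith
  have hS0 : 0 ≤ S := (abs_nonneg _).trans (hS φ)
  have e1' := abs_le.mp e1
  have e2' := abs_le.mp e2
  have e4 : 0 ≤ S * d ^ 2 := by positivity
  have e5 : 0 ≤ R0 * d ^ 2 := by positivity
  rw [abs_le]
  constructor
  · nlinarith
  · nlinarith

theorem tau_lip (h τ : ℝ → ℝ) (S R0 : ℝ) (hS : ∀ φ, |h φ| ≤ S) (hT : ∀ φ, |τ φ| ≤ S)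
    (P1 : ∀ φ ψ, h φ * Real.cos (ψ - φ) + τ φ * Real.sin (ψ - φ) ≤ h ψ)
    (hR0 : 0 ≤ R0)
    (P2 : ∀ φ ψ, h ψ ≤ h φ * Real.cos (ψ - φ) + τ φ * Real.sin (ψ - φ)
      + R0 * (1 - Real.cos (ψ - φ)))
    (φ ψ : ℝ) (hd : |ψ - φ| ≤ 1) : |τ ψ - τ φ| ≤ 2 * (2 * S + R0) * |ψ - φ| := by
  have h1 := quad_exp h τ S R0 hS hT P1 hR0 P2 φ ψ hd
  have h2 := quad_exp h τ S R0 hS hT P1 hR0 P2 ψ φ (by rw [abs_sub_comm]; exact hd)
  by_cases h0 : ψ - φ = 0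
  · have : ψ = φ := by linarith
    rw [this]; simp
  have hpos : 0 < |ψ - φ| := abs_pos.mpr h0
  have e : (τ ψ - τ φ) * (ψ - φ) = (h ψ - h φ - τ φ * (ψ - φ)) + (h φ - h ψ - τ ψ * (φ - ψ)) := by
    ring
  have e2 : |(τ ψ - τ φ)| * |ψ - φ| ≤ (2 * (2 * S + R0) * |ψ - φ|) * |ψ - φ| := by
    rw [← abs_mul, e]
    refine (abs_add_le _ _).trans ?_
    have e3 : (φ - ψ) ^ 2 = (ψ - φ) ^ 2 := by ring
    rw [e3] at h2
    have e4 : |ψ - φ| * |ψ - φ| = (ψ - φ) ^ 2 := by rw [abs_mul_abs_self]; ring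
    calc _ ≤ (2 * S + R0) * (ψ - φ) ^ 2 + (2 * S + R0) * (ψ - φ) ^ 2 := add_le_add h1 h2
      _ = 2 * (2 * S + R0) * (|ψ - φ| * |ψ - φ|) := by rw [e4]; ring
      _ = _ := by ring
  exact le_of_mul_le_mul_right e2 hpos

theorem h_lip (h τ : ℝ → ℝ) (S R0 : ℝ) (hS : ∀ φ, |h φ| ≤ S) (hT : ∀ φ, |τ φ| ≤ S)
    (P1 : ∀ φ ψ, h φ * Real.cos (ψ - φ) + τ φ * Real.sin (ψ - φ) ≤ h ψ)
    (hR0 : 0 ≤ R0)
    (P2 : ∀ φ ψ, h ψ ≤ h φ * Real.cos (ψ - φ) + τ φ * Real.sin (ψ - φ)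
      + R0 * (1 - Real.cos (ψ - φ)))
    (φ ψ : ℝ) (hd : |ψ - φ| ≤ 1) : |h ψ - h φ| ≤ (3 * S + R0) * |ψ - φ| := by
  have h1 := quad_exp h τ S R0 hS hT P1 hR0 P2 φ ψ hd
  have hS0 : 0 ≤ S := (abs_nonneg _).trans (hS φ)
  have e1 : |τ φ * (ψ - φ)| ≤ S * |ψ - φ| := by
    rw [abs_mul]; gcongr; exact hT φ
  have e2 : (ψ - φ) ^ 2 ≤ |ψ - φ| := by
    rw [← sq_abs]
    nlinarith [abs_nonneg (ψ - φ)]
  calc |h ψ - h φ| = |(h ψ - h φ - τ φ * (ψ - φ)) + τ φ * (ψ - φ)| := by ring_nf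
    _ ≤ |h ψ - h φ - τ φ * (ψ - φ)| + |τ φ * (ψ - φ)| := abs_add_le _ _
    _ ≤ (2 * S + R0) * (ψ - φ) ^ 2 + S * |ψ - φ| := add_le_add h1 e1
    _ ≤ (2 * S + R0) * |ψ - φ| + S * |ψ - φ| := by gcongr
    _ = _ := by ring

theorem h_hasDerivAt (h τ : ℝ → ℝ) (S R0 : ℝ) (hS : ∀ φ, |h φ| ≤ S) (hT : ∀ φ, |τ φ| ≤ S)
    (P1 : ∀ φ ψ, h φ * Real.cos (ψ - φ) + τ φ * Real.sin (ψ - φ) ≤ h ψ)
    (hR0 : 0 ≤ R0)
    (P2 : ∀ φ ψ, h ψ ≤ h φ * Real.cos (ψ - φ) + τ φ * Real.sin (ψ - φ)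
      + R0 * (1 - Real.cos (ψ - φ)))
    (φ : ℝ) : HasDerivAt h (τ φ) φ := by
  rw [hasDerivAt_iff_isLittleO]
  have hS0 : 0 ≤ S := (abs_nonneg _).trans (hS φ)
  rw [Asymptotics.isLittleO_iff]
  intro ε hε
  have hK : 0 < 2 * S + R0 + 1 := by positivity
  have hr : 0 < min 1 (ε / (2 * S + R0 + 1)) := lt_min one_pos (by positivity)
  filter_upwards [Metric.ball_mem_nhds φ hr] with ψ hψ
  rw [Metric.mem_ball, Real.dist_eq] at hψ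
  have hd1 : |ψ - φ| ≤ 1 := hψ.le.trans (min_le_left _ _)
  have hd2 : |ψ - φ| ≤ ε / (2 * S + R0 + 1) := hψ.le.trans (min_le_right _ _)
  rw [le_div_iff₀ hK] at hd2
  have h1 := quad_exp h τ S R0 hS hT P1 hR0 P2 φ ψ hd1
  rw [Real.norm_eq_abs, Real.norm_eq_abs, smul_eq_mul, mul_comm (ψ - φ) (τ φ)]
  refine h1.trans ?_
  rw [← sq_abs]
  have := abs_nonneg (ψ - φ)
  nlinarith

theorem tau_cont (h τ : ℝ → ℝ) (S R0 : ℝ) (hS : ∀ φ, |h φ| ≤ S) (hT : ∀ φ, |τ φ| ≤ S)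
    (P1 : ∀ φ ψ, h φ * Real.cos (ψ - φ) + τ φ * Real.sin (ψ - φ) ≤ h ψ)
    (hR0 : 0 ≤ R0)
    (P2 : ∀ φ ψ, h ψ ≤ h φ * Real.cos (ψ - φ) + τ φ * Real.sin (ψ - φ)
      + R0 * (1 - Real.cos (ψ - φ))) : Continuous τ := by
  rw [Metric.continuous_iff]
  intro φ ε hε
  have hS0 : 0 ≤ S := (abs_nonneg _).trans (hS φ)
  have hK : 0 < 2 * (2 * S + R0) + 1 := by positivity
  refine ⟨min 1 (ε / (2 * (2 * S + R0) + 1)), lt_min one_pos (by positivity), ?_⟩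
  intro ψ hψ
  rw [Real.dist_eq] at hψ ⊢
  have hd1 : |ψ - φ| ≤ 1 := hψ.le.trans (min_le_left _ _)
  have hd2 : |ψ - φ| < ε / (2 * (2 * S + R0) + 1) := hψ.trans_le (min_le_right _ _)
  rw [lt_div_iff₀ hK] at hd2
  have h1 := tau_lip h τ S R0 hS hT P1 hR0 P2 φ ψ hd1
  have := abs_nonneg (ψ - φ)
  nlinarith

theorem h_per (h τ : ℝ → ℝ)
    (P1 : ∀ φ ψ, h φ * Real.cos (ψ - φ) + τ φ * Real.sin (ψ - φ) ≤ h ψ) (φ : ℝ) :
    h (φ + 2 * Real.pi) = h φ := by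
  have h1 := P1 φ (φ + 2 * Real.pi)
  have h2 := P1 (φ + 2 * Real.pi) φ
  rw [add_sub_cancel_left, Real.cos_two_pi, Real.sin_two_pi] at h1
  rw [show φ - (φ + 2 * Real.pi) = -(2 * Real.pi) by ring, Real.cos_neg, Real.sin_neg,
    Real.cos_two_pi, Real.sin_two_pi] at h2
  linarith

/-- smoothing of a `C^{1,1}` support function -/
theorem smooth_c11 (h τ : ℝ → ℝ) (S R0 : ℝ) (hS : ∀ φ, |h φ| ≤ S) (hT : ∀ φ, |τ φ| ≤ S)
    (P1 : ∀ φ ψ, h φ * Real.cos (ψ - φ) + τ φ * Real.sin (ψ - φ) ≤ h ψ)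
    (hR0 : 0 ≤ R0)
    (P2 : ∀ φ ψ, h ψ ≤ h φ * Real.cos (ψ - φ) + τ φ * Real.sin (ψ - φ)
      + R0 * (1 - Real.cos (ψ - φ)))
    (C : ℝ) (hC : 12 * S + 4 * R0 + 1 ≤ C) (δ : ℝ) (hδ0 : 0 < δ) (hδ1 : δ ≤ 1) :
    (∀ φ, HasDerivAt (fun φ => avg δ h φ + C * δ) (δ⁻¹ * (h (φ + δ) - h φ)) φ) ∧
    (∀ φ, HasDerivAt (fun φ => δ⁻¹ * (h (φ + δ) - h φ)) (δ⁻¹ * (τ (φ + δ) - τ φ)) φ) ∧
    Continuous (fun φ => δ⁻¹ * (τ (φ + δ) - τ φ)) ∧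
    (∀ φ, 0 ≤ (avg δ h φ + C * δ) + δ⁻¹ * (τ (φ + δ) - τ φ)) ∧
    (∀ φ, h φ + δ ≤ avg δ h φ + C * δ) ∧
    (∀ φ, |avg δ h φ - h φ| ≤ (3 * S + R0) * δ) ∧
    (∀ φ, |δ⁻¹ * (h (φ + δ) - h φ) - τ φ| ≤ (2 * S + R0) * δ) ∧
    (∀ φ, δ⁻¹ * (h (φ + δ) - h φ) = avg δ τ φ) := by
  have hS0 : 0 ≤ S := (abs_nonneg _).trans (hS 0)
  have hder := h_hasDerivAt h τ S R0 hS hT P1 hR0 P2
  have hτc := tau_cont h τ S R0 hS hT P1 hR0 P2
  have hc : Continuous h := continuous_iff_continuousAt.mpr fun φ => (hder φ).continuousAt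
  have hnear : ∀ φ, |avg δ h φ - h φ| ≤ (3 * S + R0) * δ := by
    intro φ
    apply avg_near hδ0 hc
    intro t ht
    have hd : |t - φ| ≤ δ := by
      rw [abs_of_nonneg (by linarith [ht.1])]; linarith [ht.2]
    refine (h_lip h τ S R0 hS hT P1 hR0 P2 φ t (hd.trans hδ1)).trans ?_
    gcongr
  refine ⟨fun φ => (avg_hasDerivAt hc φ).add_const _, fun φ => ?_, by fun_prop, fun φ => ?_,
    fun φ => ?_, hnear, fun φ => ?_, fun φ => ?_⟩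
  · exact (((hder (φ + δ)).comp_add_const φ δ).sub (hder φ)).const_mul _
  · have h1 := P1 φ (φ + δ)
    have h2 := P1 (φ + δ) φ
    rw [add_sub_cancel_left] at h1
    rw [show φ - (φ + δ) = -δ by ring, Real.cos_neg, Real.sin_neg] at h2
    have hn := abs_le.mp (hnear φ)
    have hδabs : |δ| ≤ 1 := by rw [abs_of_pos hδ0]; exact hδ1
    have ht := tau_lip h τ S R0 hS hT P1 hR0 P2 φ (φ + δ) (by rw [add_sub_cancel_left]; exact hδabs)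
    have hl := h_lip h τ S R0 hS hT P1 hR0 P2 φ (φ + δ) (by rw [add_sub_cancel_left]; exact hδabs)
    rw [add_sub_cancel_left, abs_of_pos hδ0] at ht hl
    have hs := sin_near δ hδabs
    have hcb := Real.cos_bound (x := δ) hδabs
    rw [abs_of_pos hδ0] at hcb
    set a := h φ
    set b := h (φ + δ)
    set u := τ φ
    set v := τ (φ + δ)
    have ha := hS φ
    have hb := hS (φ + δ)
    -- main inequality
    have m1 : -((1 - Real.cos δ) * (a + b)) ≤ (v - u) * Real.sin δ := by nlinarith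
    have m2 : |(v - u) * (Real.sin δ - δ)| ≤ (2 * (2 * S + R0) * δ) * δ ^ 2 := by
      rw [abs_mul]
      exact mul_le_mul ht hs (abs_nonneg _) (by positivity)
    have m3 : |(Real.cos δ - (1 - δ ^ 2 / 2)) * (a + b)| ≤ (δ ^ 4 * (5 / 96)) * (2 * S) := by
      rw [abs_mul]
      apply mul_le_mul hcb _ (abs_nonneg _) (by positivity)
      refine (abs_add_le _ _).trans ?_
      linarith
    have m4 : δ ^ 4 ≤ δ ^ 3 := pow_le_pow_of_le_one hδ0.le hδ1 (by norm_num)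
    have m5 : (δ ^ 4 * (5 / 96)) * (2 * S) ≤ δ ^ 3 * S := by
      have : 0 ≤ δ ^ 3 * S := by positivity
      nlinarith [mul_le_mul_of_nonneg_right m4 hS0]
    have m2' := abs_le.mp m2
    have m3' := abs_le.mp m3
    have hl' := abs_le.mp hl
    have m6 : δ ^ 2 / 2 * (b - a) ≤ δ ^ 2 / 2 * ((3 * S + R0) * δ) := by
      gcongr; exact hl'.2
    have m7 : -(a * δ ^ 2) - δ ^ 3 * ((3 * S + R0) / 2 + S + 2 * (2 * S + R0)) ≤ (v - u) * δ := by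
      nlinarith
    have m8 : -a - δ * ((3 * S + R0) / 2 + S + 2 * (2 * S + R0)) ≤ δ⁻¹ * (v - u) := by
      have e : δ⁻¹ * (v - u) = ((v - u) * δ) / δ ^ 2 := by field_simp
      rw [e, le_div_iff₀ (by positivity)]
      nlinarith
    nlinarith
  · have hn := abs_le.mp (hnear φ)
    nlinarith
  · have hδabs : |δ| ≤ 1 := by rw [abs_of_pos hδ0]; exact hδ1
    have hq := quad_exp h τ S R0 hS hT P1 hR0 P2 φ (φ + δ) (by rw [add_sub_cancel_left]; exact hδabs)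
    rw [add_sub_cancel_left] at hq
    have e : δ⁻¹ * (h (φ + δ) - h φ) - τ φ = δ⁻¹ * (h (φ + δ) - h φ - τ φ * δ) := by
      field_simp
    rw [e, abs_mul, abs_inv, abs_of_pos hδ0, inv_mul_le_iff₀ hδ0]
    linarith
  · unfold avg
    congr 1
    rw [intervalIntegral.integral_eq_sub_of_hasDerivAt (fun t _ => hder t)
      (hτc.intervalIntegrable _ _)]

end Pool.Agent.V110.QN
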