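import Pool.Agent.V110.QN.CurveQ
import Pool.Agent.V110.QN.SmoothQ
import Pool.Agent.W753.CZ.Near

set_option autoImplicit false

open MeasureTheory Set Filter Topology Complex Polynomial

namespace Pool.Agent.V110.QN

open Pool.Agent.W753.CZ

variable {H : Type*} [NormedAddCommGroup H] [InnerProductSpace ℂ H]

/-- pointwise sector inequality -/
theorem sector_pt (q ρ : ℝ) (hq0 : 0 < q) (hq1 : q < 1) (hρ : 0 ≤ ρ) (v d : H)
    (hd : ‖d‖ ≤ q * ρ * ‖v‖) :
    √(1 - q ^ 2) * ‖v‖ * ‖(ρ : ℂ) • v - d‖ ≤ (inner ℂ v ((ρ : ℂ) • v - d)).re := by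
  set a := (inner ℂ v d).re with ha
  set n := ‖v‖ with hn
  have hn0 : 0 ≤ n := norm_nonneg _
  have hr : (inner ℂ v ((ρ : ℂ) • v - d)).re = ρ * n ^ 2 - a := by
    rw [inner_sub_right, inner_smul_right, inner_self_eq_norm_sq_to_K, Complex.sub_re, ha, hn]
    congr 1
    have : (ρ : ℂ) * (RCLike.ofReal ‖v‖ : ℂ) ^ 2 = ((ρ * ‖v‖ ^ 2 : ℝ) : ℂ) := by
      push_cast; rfl
    rw [this, Complex.ofReal_re]
  have hl : ‖(ρ : ℂ) • v - d‖ ^ 2 = ρ ^ 2 * n ^ 2 - 2 * ρ * a + ‖d‖ ^ 2 := by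
    rw [norm_sub_sq (𝕜 := ℂ), norm_smul, inner_smul_left]
    have : RCLike.re ((starRingEnd ℂ) (ρ : ℂ) * inner ℂ v d) = ρ * a := by
      rw [Complex.conj_ofReal]
      exact Complex.re_ofReal_mul _ _
    rw [this, Complex.norm_real, Real.norm_eq_abs, mul_pow, sq_abs]
    ring
  have ha' : a ≤ q * ρ * n ^ 2 := by
    calc a ≤ ‖inner ℂ v d‖ := Complex.re_le_norm _
      _ ≤ ‖v‖ * ‖d‖ := norm_inner_le_norm _ _
      _ ≤ n * (q * ρ * n) := by gcongr
      _ = _ := by ring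
  have hpos : 0 ≤ ρ * n ^ 2 - a := by
    have : 0 ≤ (1 - q) * (ρ * n ^ 2) := by
      have := hq1.le
      have h1 : 0 ≤ 1 - q := by linarith
      positivity
    nlinarith
  have hd2 : ‖d‖ ^ 2 ≤ (q * ρ * n) ^ 2 := pow_le_pow_left₀ (norm_nonneg _) hd 2
  have hq2 : 0 ≤ 1 - q ^ 2 := by nlinarith
  rw [hr]
  rw [← pow_le_pow_iff_left₀ (by positivity) hpos two_ne_zero]
  rw [mul_pow, mul_pow, Real.sq_sqrt hq2, hl]
  have h1 : (1 - q ^ 2) * n ^ 2 * (ρ ^ 2 * n ^ 2 - 2 * ρ * a + ‖d‖ ^ 2) ≤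
      (1 - q ^ 2) * n ^ 2 * (ρ ^ 2 * n ^ 2 - 2 * ρ * a + (q * ρ * n) ^ 2) := by
    gcongr
  refine h1.trans ?_
  nlinarith [sq_nonneg (a - q ^ 2 * ρ * n ^ 2)]

theorem rot_re (φ ψ : ℝ) (w : ℂ) : (exp (-ψ * I) * w).re =
    (exp (-φ * I) * w).re * Real.cos (ψ - φ) + (exp (-φ * I) * w).im * Real.sin (ψ - φ) := by
  have e : exp (-ψ * I) * w = exp (((-(ψ - φ) : ℝ) : ℂ) * I) * (exp (-φ * I) * w) := by
    rw [← mul_assoc, ← Complex.exp_add]
    congr 2
    push_cast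
    ring
  rw [e, Complex.exp_mul_I, ← Complex.ofReal_cos, ← Complex.ofReal_sin, Real.cos_neg,
    Real.sin_neg]
  simp only [Complex.mul_re, Complex.add_re, Complex.ofReal_re, Complex.add_im,
    Complex.ofReal_im, Complex.I_re, Complex.I_im, Complex.mul_im]
  ring

theorem exp_cancel (φ : ℝ) : exp (-φ * I) * exp (φ * I) = 1 := by
  rw [← Complex.exp_add]; simp

theorem expdiff (s t : ℝ) (ζ : ℂ) :
    |(exp (-s * I) * ζ).re - (exp (-t * I) * ζ).re| ≤ |s - t| * ‖ζ‖ := by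
  rw [← Complex.sub_re, ← sub_mul]
  refine (Complex.abs_re_le_norm _).trans ?_
  rw [norm_mul]
  gcongr
  have h1 : exp (-s * I) - exp (-t * I) =
      exp (-t * I) * (exp (I * ((t - s : ℝ) : ℂ)) - 1) := by
    rw [mul_sub, ← Complex.exp_add, mul_one]
    congr 2
    push_cast
    ring
  rw [h1, norm_mul, norm_exp', one_mul]
  have h2 := Real.norm_exp_I_mul_ofReal_sub_one_le (x := t - s)
  rw [Real.norm_eq_abs, abs_sub_comm] at h2
  exact h2

variable [CompleteSpace H]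

/-- The assembled bound. -/
theorem assemble (A : H →L[ℂ] H) (q : ℝ) (hq0 : 0 < q) (hq1 : q < 1) (R0 : ℝ)
    (c : ℝ → ℂ) (ρ : ℝ → ℝ) (Ω : Set ℂ) (hρ0 : ∀ φ, 0 ≤ ρ φ) (hρR : ∀ φ, ρ φ ≤ R0)
    (hA : ∀ φ, ‖A - c φ • (1 : H →L[ℂ] H)‖ ≤ q * ρ φ)
    (hΩ1 : ∀ φ : ℝ, c φ + ρ φ * exp (φ * I) ∈ Ω)
    (hΩ2 : ∀ φ : ℝ, ∀ w ∈ Ω, ‖w - c φ‖ ≤ ρ φ)
    (p : ℂ[X]) (M : ℝ) (hM : ∀ w ∈ Ω, ‖p.eval w‖ ≤ M) :
    ‖aeval A p‖ ≤ max 1 (2 * q / (1 + √(1 - q ^ 2))) * M := by
  have hR0 : 0 ≤ R0 := (hρ0 0).trans (hρR 0)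
  set S : ℝ := ‖c 0‖ + R0 with hSd
  have hS0 : 0 ≤ S := by positivity
  have hΩS : ∀ w ∈ Ω, ‖w‖ ≤ S := by
    intro w hw
    have h1 := hΩ2 0 w hw
    have h2 := hρR 0
    calc ‖w‖ = ‖(w - c 0) + c 0‖ := by ring_nf
      _ ≤ ‖w - c 0‖ + ‖c 0‖ := norm_add_le _ _
      _ ≤ S := by rw [hSd]; linarith
  set σ : ℝ → ℂ := fun φ => c φ + ρ φ * exp (φ * I) with hσ
  have hσΩ : ∀ φ, σ φ ∈ Ω := hΩ1
  set h : ℝ → ℝ := fun φ => (exp (-φ * I) * σ φ).re with hh
  set τ : ℝ → ℝ := fun φ => (exp (-φ * I) * σ φ).im with hτ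
  have hhS : ∀ φ, |h φ| ≤ S := by
    intro φ
    refine (Complex.abs_re_le_norm _).trans ?_
    rw [norm_mul, norm_exp', one_mul]
    exact hΩS _ (hσΩ φ)
  have hτS : ∀ φ, |τ φ| ≤ S := by
    intro φ
    refine (Complex.abs_im_le_norm _).trans ?_
    rw [norm_mul, norm_exp', one_mul]
    exact hΩS _ (hσΩ φ)
  have hhc : ∀ φ, h φ = (exp (-φ * I) * c φ).re + ρ φ := by
    intro φ
    have : exp (-φ * I) * σ φ = exp (-φ * I) * c φ + ρ φ := by
      rw [hσ]
      simp only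
      rw [mul_add, mul_left_comm, exp_cancel, mul_one]
    rw [hh]
    simp only
    rw [this, Complex.add_re, Complex.ofReal_re]
  have hle : ∀ (ψ : ℝ) (w : ℂ) (z : ℂ) (r : ℝ), ‖w - z‖ ≤ r →
      (exp (-ψ * I) * w).re ≤ (exp (-ψ * I) * z).re + r := by
    intro ψ w z r hr
    have e : exp (-ψ * I) * w = exp (-ψ * I) * z + exp (-ψ * I) * (w - z) := by ring
    rw [e, Complex.add_re]
    have : (exp (-ψ * I) * (w - z)).re ≤ r := by
      refine (Complex.re_le_norm _).trans ?_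
      rw [norm_mul, norm_exp', one_mul]
      exact hr
    linarith
  have P1 : ∀ φ ψ, h φ * Real.cos (ψ - φ) + τ φ * Real.sin (ψ - φ) ≤ h ψ := by
    intro φ ψ
    rw [← rot_re φ ψ (σ φ), hhc ψ]
    exact hle ψ _ _ _ (hΩ2 ψ _ (hσΩ φ))
  have P2 : ∀ φ ψ, h ψ ≤ h φ * Real.cos (ψ - φ) + τ φ * Real.sin (ψ - φ)
      + R0 * (1 - Real.cos (ψ - φ)) := by
    intro φ ψ
    have h1 := hle ψ _ _ _ (hΩ2 φ _ (hσΩ ψ))
    have h2 : (exp (-ψ * I) * c φ).re = (exp (-ψ * I) * σ φ).re - ρ φ * Real.cos (ψ - φ) := by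
      have e1 := rot_re φ ψ (ρ φ * exp (φ * I))
      have e2 : exp (-φ * I) * (ρ φ * exp (φ * I)) = ρ φ := by
        rw [mul_left_comm, exp_cancel, mul_one]
      rw [e2, Complex.ofReal_re, Complex.ofReal_im, zero_mul, add_zero] at e1
      have e3 : exp (-ψ * I) * σ φ = exp (-ψ * I) * c φ + exp (-ψ * I) * (ρ φ * exp (φ * I)) := by
        rw [hσ]; ring
      rw [e3, Complex.add_re, e1]
      ring
    rw [h2, rot_re φ ψ (σ φ)] at h1
    have h3 : ρ φ * (1 - Real.cos (ψ - φ)) ≤ R0 * (1 - Real.cos (ψ - φ)) := by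
      have := Real.cos_le_one (ψ - φ)
      have h4 := hρR φ
      exact mul_le_mul_of_nonneg_right h4 (by linarith)
    change (exp (-ψ * I) * σ ψ).re ≤ _
    linarith
  -- parameters
  set μ : ℝ := √(1 - q ^ 2) with hμ
  have hq2 : 0 ≤ 1 - q ^ 2 := by nlinarith
  have hμ0 : 0 ≤ μ := Real.sqrt_nonneg _
  have hμsq : μ ^ 2 = 1 - q ^ 2 := Real.sq_sqrt hq2
  have hμ1 : μ < 1 := by nlinarith
  set R : ℝ := (1 + μ) / q with hR
  have hR1 : 1 ≤ R := by rw [hR, le_div_iff₀ hq0]; linarith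
  have hR2 : R ^ 2 * (1 - μ) = 1 + μ := by
    rw [hR]
    field_simp
    nlinarith
  have h2R : 2 / R = 2 * q / (1 + μ) := by
    rw [hR]
    field_simp
  rw [← h2R]
  -- pointwise sector condition
  have hsecθ : ∀ (θ : ℝ) (v : H), μ * ‖v‖ * ‖((h θ : ℂ) + (τ θ : ℂ) * I) • v - exp (-θ * I) • A v‖ ≤
      (inner ℂ v (((h θ : ℂ) + (τ θ : ℂ) * I) • v - exp (-θ * I) • A v)).re := by
    intro θ v
    have e1 : ((h θ : ℂ) + (τ θ : ℂ) * I) = exp (-θ * I) * c θ + ρ θ := by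
      have e2 : exp (-θ * I) * σ θ = exp (-θ * I) * c θ + ρ θ := by
        rw [hσ]
        simp only
        rw [mul_add, mul_left_comm, exp_cancel, mul_one]
      rw [← e2]
      exact Complex.re_add_im _
    have e3 : ((h θ : ℂ) + (τ θ : ℂ) * I) • v - exp (-θ * I) • A v =
        (ρ θ : ℂ) • v - exp (-θ * I) • ((A - c θ • (1 : H →L[ℂ] H)) v) := by
      rw [e1]
      simp only [sub_apply, smul_apply, one_apply_eq_self]
      module
    rw [e3]
    apply sector_pt q (ρ θ) hq0 hq1 (hρ0 θ)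
    rw [norm_smul, norm_exp', one_mul]
    refine (ContinuousLinearMap.le_opNorm _ _).trans ?_
    gcongr
    exact hA θ
  have hτc := tau_cont h τ S R0 hhS hτS P1 hR0 P2
  have hhcont : Continuous h := continuous_iff_continuousAt.mpr fun φ =>
    (h_hasDerivAt h τ S R0 hhS hτS P1 hR0 P2 φ).continuousAt
  have hMnn : 0 ≤ M := (norm_nonneg _).trans (hM _ (hσΩ 0))
  set C : ℝ := 12 * S + 4 * R0 + 1 + R ^ 2 * ‖A‖ with hC
  have hC0 : 12 * S + 4 * R0 + 1 ≤ C := by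
    have : 0 ≤ R ^ 2 * ‖A‖ := by positivity
    linarith
  have hCpos : 0 < C := by linarith
  -- smoothed sector condition
  have hsecδ : ∀ δ : ℝ, 0 < δ → ∀ (φ : ℝ) (v : H),
      μ * ‖v‖ * ‖(((avg δ h φ + C * δ : ℝ) : ℂ) + ((avg δ τ φ : ℝ) : ℂ) * I) • v
        - exp (-φ * I) • A v‖ ≤
      (inner ℂ v ((((avg δ h φ + C * δ : ℝ) : ℂ) + ((avg δ τ φ : ℝ) : ℂ) * I) • v
        - exp (-φ * I) • A v)).re := by
    intro δ hδ φ v
    set u : H := (((avg δ h φ + C * δ : ℝ) : ℂ) + ((avg δ τ φ : ℝ) : ℂ) * I) • v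
        - exp (-φ * I) • A v with hu
    by_cases hu0 : u = 0
    · rw [hu0]; simp
    have hun : 0 < ‖u‖ := norm_pos_iff.mpr hu0
    set w : H := v - ((μ * ‖v‖ / ‖u‖ : ℝ) : ℂ) • u with hw
    have hwin : ∀ x : H, (inner ℂ w x).re = (inner ℂ v x).re - μ * ‖v‖ / ‖u‖ * (inner ℂ u x).re := by
      intro x
      rw [hw, inner_sub_left, inner_smul_left, Complex.conj_ofReal, Complex.sub_re,
        Complex.re_ofReal_mul]
    set a := (inner ℂ w v).re with ha
    set b := (inner ℂ w v).im with hb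
    set ζ := inner ℂ w (A v) with hζ
    have hlin : ∀ (x y θ : ℝ), (inner ℂ w (((x : ℂ) + (y : ℂ) * I) • v - exp (-θ * I) • A v)).re =
        a * x - b * y - (exp (-θ * I) * ζ).re := by
      intro x y θ
      rw [inner_sub_right, inner_smul_right, inner_smul_right, Complex.sub_re, Complex.mul_re]
      simp only [Complex.add_re, Complex.ofReal_re, Complex.add_im, Complex.ofReal_im,
        Complex.I_re, Complex.I_im, Complex.mul_im, Complex.mul_re]
      ring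
    have hg : ∀ θ, 0 ≤ a * h θ - b * τ θ - (exp (-θ * I) * ζ).re := by
      intro θ
      rw [← hlin, hwin]
      have h1 := hsecθ θ v
      set x := ((h θ : ℂ) + (τ θ : ℂ) * I) • v - exp (-θ * I) • A v
      have h2 : (inner ℂ u x).re ≤ ‖u‖ * ‖x‖ :=
        (Complex.re_le_norm _).trans (norm_inner_le_norm _ _)
      have h3 : μ * ‖v‖ / ‖u‖ * (inner ℂ u x).re ≤ μ * ‖v‖ / ‖u‖ * (‖u‖ * ‖x‖) := by gcongr
      have h4 : μ * ‖v‖ / ‖u‖ * (‖u‖ * ‖x‖) = μ * ‖v‖ * ‖x‖ := by field_simp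
      linarith
    have hZc : Continuous (fun θ : ℝ => (exp (-θ * I) * ζ).re) := by fun_prop
    have havg : avg δ (fun θ => a * h θ - b * τ θ - (exp (-θ * I) * ζ).re) φ =
        a * avg δ h φ - b * avg δ τ φ - avg δ (fun θ : ℝ => (exp (-θ * I) * ζ).re) φ := by
      unfold avg
      rw [intervalIntegral.integral_sub, intervalIntegral.integral_sub,
        intervalIntegral.integral_const_mul, intervalIntegral.integral_const_mul]
      · ring
      · exact (continuous_const.mul hhcont).intervalIntegrable _ _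
      · exact (continuous_const.mul hτc).intervalIntegrable _ _
      · exact ((continuous_const.mul hhcont).sub (continuous_const.mul hτc)).intervalIntegrable _ _
      · exact hZc.intervalIntegrable _ _
    have havg0 : 0 ≤ avg δ (fun θ => a * h θ - b * τ θ - (exp (-θ * I) * ζ).re) φ := by
      unfold avg
      apply mul_nonneg (by positivity)
      apply intervalIntegral.integral_nonneg (by linarith)
      intro θ _
      exact hg θ
    have hZ := avg_near hδ hZc (φ := φ) (v := (exp (-φ * I) * ζ).re) (C := ‖ζ‖ * δ) (by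
      intro t ht
      refine (expdiff t φ ζ).trans ?_
      rw [abs_of_nonneg (by linarith [ht.1]), mul_comm]
      gcongr
      linarith [ht.2])
    have hZ' := abs_le.mp hZ
    have haa : (1 - μ) * ‖v‖ ^ 2 ≤ a := by
      rw [ha, hwin]
      have h1 : (inner ℂ v v).re = ‖v‖ ^ 2 := by
        rw [inner_self_eq_norm_sq_to_K]; norm_cast
      have h2 : (inner ℂ u v).re ≤ ‖u‖ * ‖v‖ :=
        (Complex.re_le_norm _).trans (norm_inner_le_norm _ _)
      have h3 : μ * ‖v‖ / ‖u‖ * (inner ℂ u v).re ≤ μ * ‖v‖ / ‖u‖ * (‖u‖ * ‖v‖) := by gcongr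
      have h4 : μ * ‖v‖ / ‖u‖ * (‖u‖ * ‖v‖) = μ * ‖v‖ ^ 2 := by field_simp
      rw [h1]
      linarith
    have hwn : ‖w‖ ≤ (1 + μ) * ‖v‖ := by
      rw [hw]
      refine (norm_sub_le _ _).trans ?_
      rw [norm_smul, Complex.norm_real, Real.norm_of_nonneg (by positivity)]
      have : μ * ‖v‖ / ‖u‖ * ‖u‖ = μ * ‖v‖ := by field_simp
      rw [this]
      linarith
    have hζn : ‖ζ‖ ≤ (1 + μ) * ‖A‖ * ‖v‖ ^ 2 := by
      rw [hζ]
      calc ‖inner ℂ w (A v)‖ ≤ ‖w‖ * ‖A v‖ := norm_inner_le_norm _ _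
        _ ≤ ((1 + μ) * ‖v‖) * (‖A‖ * ‖v‖) := by
            gcongr
            exact A.le_opNorm v
        _ = _ := by ring
    have hCa : ‖ζ‖ ≤ C * a := by
      calc ‖ζ‖ ≤ (1 + μ) * ‖A‖ * ‖v‖ ^ 2 := hζn
        _ = (R ^ 2 * ‖A‖) * ((1 - μ) * ‖v‖ ^ 2) := by rw [← hR2]; ring
        _ ≤ C * ((1 - μ) * ‖v‖ ^ 2) := by
            have : R ^ 2 * ‖A‖ ≤ C := by rw [hC]; linarith
            have h1 : 0 ≤ 1 - μ := by linarith
            gcongr
        _ ≤ C * a := by gcongr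
    have hfin : 0 ≤ (inner ℂ w u).re := by
      rw [hu, hlin]
      rw [havg] at havg0
      have : ‖ζ‖ * δ ≤ C * a * δ := by gcongr
      linarith
    rw [hwin] at hfin
    have h5 : (inner ℂ u u).re = ‖u‖ ^ 2 := by
      rw [inner_self_eq_norm_sq_to_K]; norm_cast
    rw [h5] at hfin
    have h6 : μ * ‖v‖ / ‖u‖ * ‖u‖ ^ 2 = μ * ‖v‖ * ‖u‖ := by field_simp
    linarith
  -- the limiting argument
  refine le_of_forall_pos_le_add fun ε hε => ?_
  set K0 : ℝ := max 1 (2 / R) with hK0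
  have hK0pos : 0 < K0 := lt_of_lt_of_le one_pos (le_max_left _ _)
  set M' := M + ε / K0 with hM'
  have hM'0 : 0 < M' := by positivity
  have hU : IsOpen {z : ℂ | ‖p.eval z‖ < M'} := isOpen_lt (by fun_prop) continuous_const
  have hK : IsCompact (closure Ω) := by
    apply Metric.isCompact_of_isClosed_isBounded isClosed_closure
    apply Bornology.IsBounded.closure
    rw [isBounded_iff_forall_norm_le]
    exact ⟨S, hΩS⟩
  have hsub : closure Ω ⊆ {z : ℂ | ‖p.eval z‖ < M'} := by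
    have h1 : closure Ω ⊆ {z : ℂ | ‖p.eval z‖ ≤ M} :=
      closure_minimal hM (isClosed_le (by fun_prop) continuous_const)
    intro z hz
    have h2 : ‖p.eval z‖ ≤ M := h1 hz
    show ‖p.eval z‖ < M'
    have : 0 < ε / K0 := by positivity
    linarith
  obtain ⟨η, hη, hηs⟩ := hK.exists_cthickening_subset_open hU hsub
  rw [Metric.cthickening_closure] at hηs
  set K1 : ℝ := (3 * S + R0) + C + (2 * S + R0) with hK1
  have hK1pos : 0 < K1 := by positivity
  set δ := min 1 (η / K1) with hδ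
  have hδ0 : 0 < δ := lt_min one_pos (by positivity)
  have hδ1 : δ ≤ 1 := min_le_left _ _
  have hδη : K1 * δ ≤ η := by
    have : δ ≤ η / K1 := min_le_right _ _
    rw [le_div_iff₀ hK1pos] at this
    linarith
  obtain ⟨d1, d2, d3, d4, d5, d6, d7, d8⟩ := smooth_c11 h τ S R0 hhS hτS P1 hR0 P2 C hC0 δ hδ0 hδ1
  have hper := h_per h τ P1
  have hev : ∀ φ, ‖p.eval (sg (fun φ => avg δ h φ + C * δ) (fun φ => δ⁻¹ * (h (φ + δ) - h φ)) φ)‖
      ≤ M' := by
    intro φ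
    have hdist : dist (sg (fun φ => avg δ h φ + C * δ) (fun φ => δ⁻¹ * (h (φ + δ) - h φ)) φ)
        (σ φ) ≤ η := by
      have e1 : σ φ = exp (φ * I) * ((h φ : ℂ) + (τ φ : ℂ) * I) := by
        have : ((h φ : ℂ) + (τ φ : ℂ) * I) = exp (-φ * I) * σ φ := Complex.re_add_im _
        rw [this, ← mul_assoc, mul_comm (exp (φ * I)), exp_cancel, one_mul]
      have hnexp : ‖exp ((φ : ℂ) * I)‖ = 1 := Complex.norm_exp_ofReal_mul_I φ
      rw [dist_eq_norm]
      unfold sg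
      rw [e1, ← mul_sub, norm_mul, hnexp, one_mul]
      have e2 : (((avg δ h φ + C * δ : ℝ) : ℂ) + ((δ⁻¹ * (h (φ + δ) - h φ) : ℝ) : ℂ) * I) -
          ((h φ : ℂ) + (τ φ : ℂ) * I) = ((avg δ h φ - h φ + C * δ : ℝ) : ℂ) +
            ((δ⁻¹ * (h (φ + δ) - h φ) - τ φ : ℝ) : ℂ) * I := by
        push_cast
        ring
      rw [e2]
      refine (norm_add_le _ _).trans ?_
      rw [norm_mul, Complex.norm_real, Complex.norm_real, Complex.norm_I, mul_one,
        Real.norm_eq_abs, Real.norm_eq_abs]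
      have h1 : |avg δ h φ - h φ + C * δ| ≤ (3 * S + R0) * δ + C * δ := by
        refine (abs_add_le _ _).trans ?_
        rw [abs_of_nonneg (by positivity : 0 ≤ C * δ)]
        linarith [d6 φ]
      have h2 := d7 φ
      calc _ ≤ ((3 * S + R0) * δ + C * δ) + (2 * S + R0) * δ := add_le_add h1 h2
        _ = K1 * δ := by rw [hK1]; ring
        _ ≤ η := hδη
    have hmem : sg (fun φ => avg δ h φ + C * δ) (fun φ => δ⁻¹ * (h (φ + δ) - h φ)) φ
        ∈ Metric.cthickening η Ω := Metric.mem_cthickening_of_dist_le _ _ _ _ (hσΩ φ) hdist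
    exact (hηs hmem).le
  have hfinal := curve_boundQ A (fun φ => avg δ h φ + C * δ) (fun φ => δ⁻¹ * (h (φ + δ) - h φ))
    (fun φ => δ⁻¹ * (τ (φ + δ) - τ φ)) d1 d2 d3
    (by
      have e := avg_periodic (δ := δ) hper 0
      rw [zero_add] at e
      rw [e])
    (by
      have e1 := hper 0
      have e2 := hper δ
      rw [zero_add] at e1
      rw [add_comm] at e2
      rw [e2, e1, zero_add]) d4 δ hδ0
    (fun φ u => by
      have h1 : (exp (-φ * I) * inner ℂ u (A u)).re ≤ h φ * ‖u‖ ^ 2 := by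
        have h2 := hsecθ φ u
        rw [inner_sub_right, inner_smul_right, inner_smul_right, inner_self_eq_norm_sq_to_K,
          Complex.sub_re] at h2
        have h3 : (((h φ : ℂ) + (τ φ : ℂ) * I) * ((‖u‖ : ℂ) ^ 2)).re = h φ * ‖u‖ ^ 2 := by
          have : ((‖u‖ : ℂ) ^ 2) = ((‖u‖ ^ 2 : ℝ) : ℂ) := by push_cast; rfl
          rw [this, mul_comm, Complex.re_ofReal_mul, Complex.add_re, Complex.ofReal_re,
            Complex.mul_re, Complex.ofReal_re, Complex.ofReal_im, Complex.I_re, Complex.I_im]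
          ring
        have h4 : (0 : ℝ) ≤ μ * ‖u‖ * ‖((h φ : ℂ) + (τ φ : ℂ) * I) • u - exp (-φ * I) • A u‖ := by
          positivity
        have h5 := h4.trans h2
        have h6 : (((h φ : ℂ) + (τ φ : ℂ) * I) * ((RCLike.ofReal ‖u‖ : ℂ) ^ 2)).re = h φ * ‖u‖ ^ 2 := h3
        rw [h6] at h5
        linarith
      refine h1.trans ?_
      have := d5 φ
      gcongr
      linarith)
    μ R hμ0 hμ1 hR1 hR2
    (fun φ v => by
      have := hsecδ δ hδ0 φ v
      rw [← d8 φ] at this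
      exact this) p M' hM'0 hev
  calc ‖aeval A p‖ ≤ K0 * M' := hfinal
    _ = K0 * M + ε := by rw [hM']; field_simp

end Pool.Agent.V110.QN
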