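import Pool.Agent.W753.CZ.Core

set_option autoImplicit false

open ContinuousLinearMap

namespace Pool.Agent.V110.QN

variable {H : Type*} [NormedAddCommGroup H] [InnerProductSpace ℂ H] [CompleteSpace H]

/-- The operator `1 + (R² - 1) y y*`. -/
noncomputable def Lam (R : ℝ) (y : H) : H →L[ℂ] H :=
  1 + ((R ^ 2 - 1 : ℝ) : ℂ) • (innerSL ℂ y).smulRight y

omit [CompleteSpace H] in
theorem Lam_apply (R : ℝ) (y u : H) :
    Lam R y u = u + ((R ^ 2 - 1 : ℝ) : ℂ) • (inner ℂ y u • y) := rfl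

omit [CompleteSpace H] in
theorem Lam_symm (R : ℝ) (y u v : H) : inner ℂ (Lam R y u) v = inner ℂ u (Lam R y v) := by
  rw [Lam_apply, Lam_apply, inner_add_left, inner_add_right, inner_smul_left, inner_smul_left,
    inner_smul_right, inner_smul_right, Complex.conj_ofReal, inner_conj_symm]
  ring

omit [CompleteSpace H] in
theorem Lam_self (R : ℝ) (y : H) (hy : ‖y‖ = 1) : Lam R y y = ((R ^ 2 : ℝ) : ℂ) • y := by
  have h1 : inner ℂ y y = 1 := by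
    rw [inner_self_eq_norm_sq_to_K, hy]; simp
  rw [Lam_apply, h1, one_smul]
  push_cast
  rw [sub_smul, one_smul]
  abel

/-- The inverse operator `1 - ((R² - 1) / R²) y y*`. -/
noncomputable def Laminv (R : ℝ) (y u : H) : H :=
  u - (((R ^ 2 - 1) / R ^ 2 : ℝ) : ℂ) • (inner ℂ y u • y)

omit [CompleteSpace H] in
theorem Lam_Laminv (R : ℝ) (hR : R ≠ 0) (y : H) (hy : ‖y‖ = 1) (u : H) :
    Lam R y (Laminv R y u) = u := by
  have h1 : inner ℂ y y = 1 := by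
    rw [inner_self_eq_norm_sq_to_K, hy]; simp
  rw [Laminv, map_sub, map_smul, map_smul, Lam_self R y hy, Lam_apply]
  rw [smul_smul, smul_smul, smul_smul, add_sub_assoc, ← sub_smul]
  have h2 : ((R ^ 2 - 1 : ℝ) : ℂ) * inner ℂ y u -
      (((R ^ 2 - 1) / R ^ 2 : ℝ) : ℂ) * inner ℂ y u * ((R ^ 2 : ℝ) : ℂ) = 0 := by
    have hRc : (R : ℂ) ≠ 0 := by exact_mod_cast hR
    push_cast
    field_simp
    ring
  rw [h2, zero_smul, add_zero]

omit [CompleteSpace H] in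
theorem Laminv_norm (R : ℝ) (hR : 1 ≤ R) (y : H) (hy : ‖y‖ = 1) (u : H) :
    ‖Laminv R y u‖ ≤ 2 * ‖u‖ := by
  rw [Laminv]
  refine (norm_sub_le _ _).trans ?_
  rw [norm_smul, norm_smul, hy, mul_one, Complex.norm_real, Real.norm_eq_abs]
  have hR0 : 0 < R ^ 2 := by positivity
  have h0 : 0 ≤ (R ^ 2 - 1) / R ^ 2 := div_nonneg (by nlinarith) hR0.le
  have h1 : (R ^ 2 - 1) / R ^ 2 ≤ 1 := by
    rw [div_le_one hR0]; linarith
  rw [abs_of_nonneg h0]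
  have h2 : ‖inner ℂ y u‖ ≤ ‖u‖ := by
    refine (norm_inner_le_norm _ _).trans ?_
    rw [hy, one_mul]
  have h3 : (R ^ 2 - 1) / R ^ 2 * ‖inner ℂ y u‖ ≤ 1 * ‖u‖ := by gcongr
  linarith

/-- Toeplitz positivity with the weight `Lam R y`. -/
def Pos (R : ℝ) (T : H →L[ℂ] H) (G : ℕ → H →L[ℂ] H) : Prop :=
  ∀ y : H, ‖y‖ = 1 → ∀ (k : ℕ) (a b c : H),
    0 ≤ (inner ℂ a (Lam R y a)).re + (inner ℂ b (Lam R y b)).re + (inner ℂ c (Lam R y c)).re
      + ((inner ℂ b (Lam R y ((T ^ k) a))).re + (inner ℂ a (Lam R y (G k b))).re)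
      + ((inner ℂ c (Lam R y ((T ^ (k + 1)) a))).re + (inner ℂ a (Lam R y (G (k + 1) c))).re)
      + ((inner ℂ c (Lam R y ((T ^ 1) b))).re + (inner ℂ b (Lam R y (G 1 c))).re)

theorem adj_pow (T : H →L[ℂ] H) (k : ℕ) (u v : H) :
    inner ℂ u ((T ^ k) v) = inner ℂ (((star T) ^ k) u) v := by
  rw [← star_pow, ContinuousLinearMap.star_eq_adjoint, adjoint_inner_left]

/-- The key inequality for near maximal vectors. -/
theorem key (R : ℝ) (hR : 1 ≤ R) (T : H →L[ℂ] H) (G : ℕ → H →L[ℂ] H)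
    (hcomm : ∀ n, T * G n = G n * T) (hpos : Pos R T G)
    (B : ℝ) (hB : ∀ n, ‖T ^ n * G (n + 1)‖ ≤ B) (hTB : ∀ n, ‖T ^ n‖ ≤ B)
    (κ : ℝ) (hκ : 0 < κ) (hRκ : 1 ≤ R * κ) (x y e : H) (hy : ‖y‖ = 1) (hx : ‖x‖ ≤ 1)
    (hTy : (star T) y = ((κ : ℝ) : ℂ) • x)
    (he : y = ((κ⁻¹ : ℝ) : ℂ) • T x + e) (k : ℕ) (lam : ℝ) (hlam : lam = 0 ∨ lam = R * (R * κ - 1)) :
    0 ≤ R ^ 2 * (1 + ‖x‖ ^ 2) - R ^ 3 * κ * ‖x‖ ^ 2
      - R * ((inner ℂ x ((T ^ 1 * G 1) x)).re / κ)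
      + lam * (R * (inner ℂ x ((T ^ k * G k) x)).re - (inner ℂ x ((T ^ (k + 1) * G (k + 1)) x)).re / κ)
      + (R ^ 2 * (R ^ 2 - 1) * ‖inner ℂ y x‖ ^ 2 + R * lam * (R ^ 2 - 1) * ‖inner ℂ y x‖ * (2 * B ^ 2)
        + lam * (B * ‖e‖) + R * (B * ‖e‖) + R * (R ^ 2 - 1) * ‖inner ℂ y x‖ * B) := by
  have hR0 : 0 < R := by linarith
  have hlam0 : 0 ≤ lam := by
    rcases hlam with h | h
    · rw [h]
    · rw [h]; exact mul_nonneg hR0.le (by linarith)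
  have hP : 0 ≤ R ^ 2 - 1 := by nlinarith
  have hB0 : 0 ≤ B := (norm_nonneg _).trans (hTB 0)
  set τ : ℂ := inner ℂ y x with hτ
  set w : H := ((star T) ^ k) x with hw
  set w' : H := Laminv R y w with hw'
  have hΛw : Lam R y w' = w := Lam_Laminv R hR0.ne' y hy w
  have hpos' := hpos y hy k (-((lam : ℂ) • w')) (-((R : ℂ) • x)) y
  have hn : (inner ℂ w w').re = (inner ℂ w' w).re := inner_re_symm (𝕜 := ℂ) _ _
  set n : ℝ := (inner ℂ w' w).re with hnd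
  have hyy : inner ℂ y y = 1 := by
    rw [inner_self_eq_norm_sq_to_K, hy]; simp
  have hxx : inner ℂ x x = ((‖x‖ ^ 2 : ℝ) : ℂ) := by
    rw [inner_self_eq_norm_sq_to_K]; norm_cast
  have hsplit : ∀ m : ℕ, (inner ℂ x ((T ^ m * G (m + 1)) y)).re =
      (inner ℂ x ((T ^ (m + 1) * G (m + 1)) x)).re / κ + (inner ℂ x ((T ^ m * G (m + 1)) e)).re := by
    intro m
    have h1 : (T ^ m * G (m + 1)) y = ((κ⁻¹ : ℝ) : ℂ) • (T ^ (m + 1) * G (m + 1)) x
        + (T ^ m * G (m + 1)) e := by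
      conv_lhs => rw [he]
      rw [map_add, map_smul]
      congr 2
      have h2 : (T ^ m * G (m + 1)) * T = T ^ (m + 1) * G (m + 1) := by
        rw [mul_assoc, ← hcomm, ← mul_assoc, ← pow_succ]
      rw [← h2]
      rfl
    rw [h1, inner_add_right, inner_smul_right, Complex.add_re, Complex.re_ofReal_mul]
    ring
  have herr : ∀ m : ℕ, |(inner ℂ x ((T ^ m * G (m + 1)) e)).re| ≤ B * ‖e‖ := by
    intro m
    calc |(inner ℂ x ((T ^ m * G (m + 1)) e)).re| ≤ ‖inner ℂ x ((T ^ m * G (m + 1)) e)‖ :=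
          Complex.abs_re_le_norm _
      _ ≤ ‖x‖ * ‖(T ^ m * G (m + 1)) e‖ := norm_inner_le_norm _ _
      _ ≤ 1 * (B * ‖e‖) := by
          gcongr
          exact ((T ^ m * G (m + 1)).le_opNorm e).trans (by gcongr; exact hB m)
      _ = B * ‖e‖ := one_mul _
  -- the nine terms
  have A1 : (inner ℂ (-((lam : ℂ) • w')) (Lam R y (-((lam : ℂ) • w')))).re = lam ^ 2 * n := by
    rw [map_neg, inner_neg_neg, map_smul, hΛw, inner_smul_left, inner_smul_right,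
      Complex.conj_ofReal, ← mul_assoc, ← Complex.ofReal_mul, Complex.re_ofReal_mul]
    ring
  have A2 : (inner ℂ (-((R : ℂ) • x)) (Lam R y (-((R : ℂ) • x)))).re =
      R ^ 2 * (‖x‖ ^ 2 + (R ^ 2 - 1) * ‖τ‖ ^ 2) := by
    rw [map_neg, inner_neg_neg, map_smul, inner_smul_left, inner_smul_right,
      Complex.conj_ofReal, ← mul_assoc, ← Complex.ofReal_mul, Complex.re_ofReal_mul, Lam_apply,
      inner_add_right, inner_smul_right, inner_smul_right, hxx, ← hτ, ← inner_conj_symm x y, ← hτ,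
      Complex.mul_conj, Complex.normSq_eq_norm_sq, ← Complex.ofReal_mul, ← Complex.ofReal_add,
      Complex.ofReal_re]
    ring
  have A3 : (inner ℂ y (Lam R y y)).re = R ^ 2 := by
    rw [Lam_self R y hy, inner_smul_right, hyy, mul_one, Complex.ofReal_re]
  have hΛx : Lam R y x = x + (((R ^ 2 - 1 : ℝ) : ℂ) * τ) • y := by
    rw [Lam_apply, smul_smul]
  have hinΛx : ∀ v : H, (inner ℂ (Lam R y x) v).re = (inner ℂ x v).re +
      (R ^ 2 - 1) * ((starRingEnd ℂ) τ * inner ℂ y v).re := by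
    intro v
    rw [hΛx, inner_add_left, inner_smul_left, map_mul, Complex.conj_ofReal, mul_assoc,
      Complex.add_re, Complex.re_ofReal_mul]
  have A4 : (inner ℂ (-((R : ℂ) • x)) (Lam R y ((T ^ k) (-((lam : ℂ) • w'))))).re =
      R * lam * (n + (R ^ 2 - 1) * ((starRingEnd ℂ) τ * inner ℂ y ((T ^ k) w')).re) := by
    rw [map_neg, map_neg, inner_neg_neg, map_smul, map_smul, inner_smul_left, inner_smul_right,
      Complex.conj_ofReal, ← mul_assoc, ← Complex.ofReal_mul, Complex.re_ofReal_mul, ← Lam_symm,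
      hinΛx, adj_pow, ← hw, hn]
  have A5 : (inner ℂ (-((lam : ℂ) • w')) (Lam R y (G k (-((R : ℂ) • x))))).re =
      lam * R * (inner ℂ x ((T ^ k * G k) x)).re := by
    rw [map_neg, map_neg, inner_neg_neg, map_smul, map_smul, inner_smul_left, inner_smul_right,
      Complex.conj_ofReal, ← mul_assoc, ← Complex.ofReal_mul, Complex.re_ofReal_mul, ← Lam_symm,
      hΛw]
    congr 2
    rw [hw, ← adj_pow]
    rfl
  have hTw : ((star T) ^ (k + 1)) y = ((κ : ℝ) : ℂ) • w := by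
    rw [pow_succ, hw]
    change ((star T) ^ k) ((star T) y) = _
    rw [hTy, map_smul]
  have A6 : (inner ℂ y (Lam R y ((T ^ (k + 1)) (-((lam : ℂ) • w'))))).re =
      -(lam * R ^ 2 * κ * n) := by
    rw [map_neg, map_neg, inner_neg_right, Complex.neg_re, map_smul, map_smul, inner_smul_right,
      Complex.re_ofReal_mul, ← Lam_symm, Lam_self R y hy, inner_smul_left, Complex.conj_ofReal,
      Complex.re_ofReal_mul, adj_pow, hTw, inner_smul_left, Complex.conj_ofReal,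
      Complex.re_ofReal_mul, hn]
    ring
  have A7 : (inner ℂ (-((lam : ℂ) • w')) (Lam R y (G (k + 1) y))).re =
      -(lam * (inner ℂ x ((T ^ k * G (k + 1)) y)).re) := by
    rw [inner_neg_left, Complex.neg_re, inner_smul_left, Complex.conj_ofReal,
      Complex.re_ofReal_mul, ← Lam_symm, hΛw]
    congr 3
    rw [hw, ← adj_pow]
    rfl
  have hyTx : inner ℂ y (T x) = ((κ * ‖x‖ ^ 2 : ℝ) : ℂ) := by
    have := adj_pow T 1 y x
    rw [pow_one, pow_one, hTy, inner_smul_left, Complex.conj_ofReal, hxx] at this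
    rw [this]
    push_cast
    rfl
  have A8 : (inner ℂ y (Lam R y ((T ^ 1) (-((R : ℂ) • x))))).re = -(R ^ 3 * κ * ‖x‖ ^ 2) := by
    rw [pow_one, map_neg, map_neg, inner_neg_right, Complex.neg_re, map_smul, map_smul,
      inner_smul_right, Complex.re_ofReal_mul, ← Lam_symm, Lam_self R y hy, inner_smul_left,
      Complex.conj_ofReal, Complex.re_ofReal_mul, hyTx, Complex.ofReal_re]
    ring
  have A9 : (inner ℂ (-((R : ℂ) • x)) (Lam R y (G 1 y))).re =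
      -(R * ((inner ℂ x ((T ^ 0 * G (0 + 1)) y)).re +
        (R ^ 2 - 1) * ((starRingEnd ℂ) τ * inner ℂ y (G 1 y)).re)) := by
    rw [inner_neg_left, Complex.neg_re, inner_smul_left, Complex.conj_ofReal,
      Complex.re_ofReal_mul, ← Lam_symm, hinΛx]
    simp
  rw [A1, A2, A3, A4, A5, A6, A7, A8, A9, hsplit k, hsplit 0] at hpos'
  have hE1 : |((starRingEnd ℂ) τ * inner ℂ y ((T ^ k) w')).re| ≤ ‖τ‖ * (2 * B ^ 2) := by
    refine (Complex.abs_re_le_norm _).trans ?_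
    rw [norm_mul, RCLike.norm_conj]
    gcongr
    calc ‖inner ℂ y ((T ^ k) w')‖ ≤ ‖y‖ * ‖(T ^ k) w'‖ := norm_inner_le_norm _ _
      _ ≤ 1 * (B * (2 * (B * 1))) := by
          rw [hy]
          gcongr
          refine ((T ^ k).le_opNorm w').trans ?_
          gcongr
          · exact hTB k
          · refine (Laminv_norm R hR y hy w).trans ?_
            gcongr
            refine (((star T) ^ k).le_opNorm x).trans ?_
            gcongr
            rw [← star_pow, norm_star]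
            exact hTB k
      _ = 2 * B ^ 2 := by ring
  have hE2 : |((starRingEnd ℂ) τ * inner ℂ y (G 1 y)).re| ≤ ‖τ‖ * B := by
    refine (Complex.abs_re_le_norm _).trans ?_
    rw [norm_mul, RCLike.norm_conj]
    gcongr
    calc ‖inner ℂ y (G 1 y)‖ ≤ ‖y‖ * ‖G 1 y‖ := norm_inner_le_norm _ _
      _ ≤ 1 * (B * 1) := by
          rw [hy]
          gcongr
          refine ((G 1).le_opNorm y).trans ?_
          rw [hy]
          gcongr
          have := hB 0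
          rwa [pow_zero, one_mul] at this
      _ = B := by ring
  have hE3 := herr k
  have hE4 := herr 0
  have hn0 : lam ^ 2 * n + R * lam * n - lam * R ^ 2 * κ * n = 0 := by
    rcases hlam with h | h
    · rw [h]; ring
    · rw [h]; ring
  have f1 := (abs_le.mp hE1).2
  have f2 := (abs_le.mp hE2).1
  have f3 := (abs_le.mp hE3).1
  have f4 := (abs_le.mp hE4).1
  have g1 := mul_le_mul_of_nonneg_left f1 (mul_nonneg (mul_nonneg hR0.le hlam0) hP)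
  have g2 := mul_le_mul_of_nonneg_left f2 (mul_nonneg hR0.le hP)
  have g3 := mul_le_mul_of_nonneg_left f3 hlam0
  have g4 := mul_le_mul_of_nonneg_left f4 hR0.le
  simp only [zero_add] at hpos' g4
  linarith

/-- Near orthogonality of near maximal vectors of a near extremal operator. -/
theorem orth (T : H →L[ℂ] H) (K : ℝ)
    (hM : ∀ a : ℂ, ‖(T - a • (1 : H →L[ℂ] H)) * (1 + (starRingEnd ℂ) a • T)‖ ≤ K * (1 + ‖a‖ ^ 2))
    (κ : ℝ) (hκ : 0 < κ) (x y e : H) (hy : ‖y‖ = 1) (hx : ‖x‖ ≤ 1)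
    (hTy : (star T) y = ((κ : ℝ) : ℂ) • x) (he : y = ((κ⁻¹ : ℝ) : ℂ) • T x + e)
    (η : ℝ) (hη : 0 < η) :
    (κ ^ 2 - 1) * η * ‖inner ℂ y x‖ ≤ K * (1 + η ^ 2) - (1 - η ^ 2) * (κ * ‖x‖ ^ 2)
      + κ ^ 2 * η * ‖e‖ := by
  have hK0 : 0 ≤ K := by
    have := (norm_nonneg _).trans (hM 0)
    simpa using this
  set τ : ℂ := inner ℂ y x with hτ
  have hxx : inner ℂ x x = ((‖x‖ ^ 2 : ℝ) : ℂ) := by
    rw [inner_self_eq_norm_sq_to_K]; norm_cast
  have hadj : ∀ v : H, inner ℂ y (T v) = ((κ : ℝ) : ℂ) * inner ℂ x v := by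
    intro v
    have := adj_pow T 1 y v
    rw [pow_one, pow_one, hTy, inner_smul_left, Complex.conj_ofReal] at this
    exact this
  have hTx : T x = ((κ : ℝ) : ℂ) • (y - e) := by
    have : y - e = ((κ⁻¹ : ℝ) : ℂ) • T x := by
      conv_lhs => rw [he]
      abel
    rw [this, smul_smul, ← Complex.ofReal_mul, mul_inv_cancel₀ hκ.ne', Complex.ofReal_one, one_smul]
  -- the phase
  obtain ⟨p, hp1, hp2⟩ : ∃ p : ℂ, ‖p‖ = 1 ∧ p * τ = ((‖τ‖ : ℝ) : ℂ) := by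
    by_cases h0 : τ = 0
    · exact ⟨1, norm_one, by simp [h0]⟩
    · have hn : (‖τ‖ : ℂ) ≠ 0 := by exact_mod_cast (norm_ne_zero_iff.mpr h0)
      refine ⟨(starRingEnd ℂ) τ / ‖τ‖, ?_, ?_⟩
      · rw [norm_div, RCLike.norm_conj, Complex.norm_real, norm_norm,
          div_self (norm_ne_zero_iff.mpr h0)]
      · rw [div_mul_eq_mul_div, mul_comm ((starRingEnd ℂ) τ), Complex.mul_conj,
          Complex.normSq_eq_norm_sq]
        push_cast
        field_simp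
  set a : ℂ := ((η : ℝ) : ℂ) * p with ha
  have han : ‖a‖ = η := by
    rw [ha, norm_mul, hp1, mul_one, Complex.norm_real, Real.norm_of_nonneg hη.le]
  have haτ : a * τ = ((η * ‖τ‖ : ℝ) : ℂ) := by
    rw [ha, mul_assoc, hp2]; push_cast; rfl
  have haτ' : (starRingEnd ℂ) a * (starRingEnd ℂ) τ = ((η * ‖τ‖ : ℝ) : ℂ) := by
    rw [← map_mul, haτ, Complex.conj_ofReal]
  have hval : inner ℂ y (((T - a • (1 : H →L[ℂ] H)) * (1 + (starRingEnd ℂ) a • T)) x) =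
      (((1 - η ^ 2) * (κ * ‖x‖ ^ 2) + (κ ^ 2 - 1) * η * ‖τ‖ : ℝ) : ℂ)
        - (starRingEnd ℂ) a * ((κ ^ 2 : ℝ) : ℂ) * inner ℂ x e := by
    have h1 : ((T - a • (1 : H →L[ℂ] H)) * (1 + (starRingEnd ℂ) a • T)) x =
        T x + (starRingEnd ℂ) a • T (T x) - a • x - (a * (starRingEnd ℂ) a) • T x := by
      change (T - a • (1 : H →L[ℂ] H)) (x + (starRingEnd ℂ) a • T x) = _
      change T (x + (starRingEnd ℂ) a • T x) - a • (x + (starRingEnd ℂ) a • T x) = _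
      rw [map_add, map_smul, smul_add, smul_smul]
      abel
    rw [h1, inner_sub_right, inner_sub_right, inner_add_right, inner_smul_right, inner_smul_right,
      inner_smul_right, hadj, hadj, hxx, Complex.mul_conj, Complex.normSq_eq_norm_sq, han, ← hτ,
      hTx, inner_smul_right, inner_sub_right, ← inner_conj_symm x y, ← hτ, haτ]
    have : (starRingEnd ℂ) a * ((κ : ℂ) * ((κ : ℂ) * ((starRingEnd ℂ) τ - inner ℂ x e))) =
        (κ : ℂ) ^ 2 * ((starRingEnd ℂ) a * (starRingEnd ℂ) τ)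
          - (starRingEnd ℂ) a * ((κ : ℂ) ^ 2) * inner ℂ x e := by ring
    rw [this, haτ']
    push_cast
    ring
  have hle : ‖inner ℂ y (((T - a • (1 : H →L[ℂ] H)) * (1 + (starRingEnd ℂ) a • T)) x)‖ ≤
      K * (1 + η ^ 2) := by
    calc ‖inner ℂ y (((T - a • (1 : H →L[ℂ] H)) * (1 + (starRingEnd ℂ) a • T)) x)‖ ≤
        ‖y‖ * ‖((T - a • (1 : H →L[ℂ] H)) * (1 + (starRingEnd ℂ) a • T)) x‖ := norm_inner_le_norm _ _
      _ ≤ 1 * ((K * (1 + η ^ 2)) * 1) := by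
          rw [hy]
          gcongr
          refine (ContinuousLinearMap.le_opNorm _ x).trans ?_
          have := hM a
          rw [han] at this
          gcongr
      _ = K * (1 + η ^ 2) := by ring
  have hre := (Complex.re_le_norm _).trans hle
  rw [hval, Complex.sub_re, Complex.ofReal_re] at hre
  have herr : ((starRingEnd ℂ) a * ((κ ^ 2 : ℝ) : ℂ) * inner ℂ x e).re ≤ κ ^ 2 * η * ‖e‖ := by
    refine (Complex.re_le_norm _).trans ?_
    rw [norm_mul, norm_mul, RCLike.norm_conj, han, Complex.norm_real,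
      Real.norm_of_nonneg (by positivity)]
    have : ‖inner ℂ x e‖ ≤ 1 * ‖e‖ := (norm_inner_le_norm _ _).trans (by gcongr)
    calc η * κ ^ 2 * ‖inner ℂ x e‖ ≤ η * κ ^ 2 * (1 * ‖e‖) := by gcongr
      _ = κ ^ 2 * η * ‖e‖ := by ring
  linarith

/-- Near maximal vectors. -/
theorem vectors (T : H →L[ℂ] H) (κ : ℝ) (hκ : ‖T‖ = κ) (hκpos : 0 < κ) (q : ℝ) (hq0 : 0 < q)
    (hq1 : q ≤ 1 / 2) : ∃ x y e : H, ‖y‖ = 1 ∧ ‖x‖ ≤ 1 ∧ 1 - 2 * q ^ 2 ≤ ‖x‖ ^ 2 ∧ ‖e‖ ≤ 2 * q ∧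
      (star T) y = ((κ : ℝ) : ℂ) • x ∧ y = ((κ⁻¹ : ℝ) : ℂ) • T x + e := by
  have hr : κ * (1 - q ^ 2) < ‖star T‖ := by
    rw [norm_star, hκ]
    nlinarith [mul_pos hκpos (pow_pos hq0 2)]
  obtain ⟨y0, hy01, hy02⟩ := ContinuousLinearMap.exists_lt_apply_of_lt_opNorm (star T) hr
  have hq21 : 0 < 1 - q ^ 2 := by nlinarith
  have hy0n : 0 < ‖y0‖ := by
    rw [norm_pos_iff]
    intro h
    rw [h, map_zero, norm_zero] at hy02
    nlinarith
  obtain ⟨y, hy, hy2⟩ : ∃ y : H, ‖y‖ = 1 ∧ κ * (1 - q ^ 2) < ‖(star T) y‖ := by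
    refine ⟨((‖y0‖⁻¹ : ℝ) : ℂ) • y0, ?_, ?_⟩
    · rw [norm_smul, Complex.norm_real, norm_inv, norm_norm, inv_mul_cancel₀ hy0n.ne']
    · rw [map_smul, norm_smul, Complex.norm_real, norm_inv, norm_norm]
      refine hy02.trans_le ?_
      have : 1 ≤ ‖y0‖⁻¹ := (one_le_inv₀ hy0n).mpr hy01.le
      exact le_mul_of_one_le_left (norm_nonneg _) this
  obtain ⟨x, hx⟩ : ∃ x : H, x = ((κ⁻¹ : ℝ) : ℂ) • (star T) y := ⟨_, rfl⟩
  have hTy : (star T) y = ((κ : ℝ) : ℂ) • x := by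
    rw [hx, smul_smul, ← Complex.ofReal_mul, mul_inv_cancel₀ hκpos.ne', Complex.ofReal_one, one_smul]
  have hxn : ‖x‖ = κ⁻¹ * ‖(star T) y‖ := by
    rw [hx, norm_smul, Complex.norm_real, Real.norm_of_nonneg (by positivity)]
  have hx1 : ‖x‖ ≤ 1 := by
    rw [hxn]
    have : ‖(star T) y‖ ≤ κ * 1 := by
      refine ((star T).le_opNorm y).trans ?_
      rw [norm_star, hκ, hy]
    calc κ⁻¹ * ‖(star T) y‖ ≤ κ⁻¹ * (κ * 1) := by gcongr
      _ = 1 := by field_simp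
  have hxl : 1 - q ^ 2 < ‖x‖ := by
    rw [hxn]
    calc 1 - q ^ 2 = κ⁻¹ * (κ * (1 - q ^ 2)) := by field_simp
      _ < κ⁻¹ * ‖(star T) y‖ := by gcongr
  have hsl : 1 - 2 * q ^ 2 ≤ ‖x‖ ^ 2 := by
    nlinarith [norm_nonneg x, sq_nonneg (q ^ 2)]
  set e : H := y - ((κ⁻¹ : ℝ) : ℂ) • T x with he
  have hye : y = ((κ⁻¹ : ℝ) : ℂ) • T x + e := by rw [he]; abel
  have hyx : (inner ℂ y (T x)).re = κ * ‖x‖ ^ 2 := by
    have := adj_pow T 1 y x
    rw [pow_one, pow_one, hTy, inner_smul_left, Complex.conj_ofReal] at this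
    rw [this, Complex.re_ofReal_mul]
    congr 1
    exact inner_self_eq_norm_sq (𝕜 := ℂ) x
  have hTx : ‖T x‖ ≤ κ * ‖x‖ := by
    rw [← hκ]
    exact T.le_opNorm x
  have hesq : ‖e‖ ^ 2 ≤ 1 - ‖x‖ ^ 2 := by
    have h1 := norm_sub_sq (𝕜 := ℂ) y (((κ⁻¹ : ℝ) : ℂ) • T x)
    rw [← he] at h1
    rw [h1, inner_smul_right, norm_smul, Complex.norm_real, Real.norm_of_nonneg (by positivity : (0:ℝ) ≤ κ⁻¹)]
    have h2 : RCLike.re (((κ⁻¹ : ℝ) : ℂ) * inner ℂ y (T x)) = ‖x‖ ^ 2 := by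
      have : RCLike.re (((κ⁻¹ : ℝ) : ℂ) * inner ℂ y (T x)) = κ⁻¹ * (inner ℂ y (T x)).re := by
        rw [RCLike.re_eq_complex_re, Complex.re_ofReal_mul]
      rw [this, hyx]; field_simp
    rw [h2]
    have h3 : κ⁻¹ * ‖T x‖ ≤ ‖x‖ := by
      calc κ⁻¹ * ‖T x‖ ≤ κ⁻¹ * (κ * ‖x‖) := by gcongr
        _ = ‖x‖ := by field_simp
    have h4 : (κ⁻¹ * ‖T x‖) ^ 2 ≤ ‖x‖ ^ 2 := by gcongr
    rw [hy]
    linarith
  have he2 : ‖e‖ ≤ 2 * q := by
    apply abs_le_of_sq_le_sq' _ (by positivity) |>.2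
    nlinarith
  exact ⟨x, y, e, hy, hx1, hsl, he2, hTy, hye⟩

/-- Numerical estimate for the overlap. -/
theorem overlap (K κ κ0 q s τ E : ℝ) (hK0 : 0 < K) (hκ01 : 1 < κ0) (hκκ0 : κ0 < κ) (hκK : κ ≤ K)
    (hTK : K - q ^ 2 < κ) (hq0 : 0 < q) (hq1 : q ≤ 1 / 2) (hsl : 1 - 2 * q ^ 2 ≤ s) (hE0 : 0 ≤ E)
    (hE : E ≤ 2 * q) (hτ0 : 0 ≤ τ)
    (horth : (κ ^ 2 - 1) * q * τ ≤ K * (1 + q ^ 2) - (1 - q ^ 2) * (κ * s) + κ ^ 2 * q * E) :
    τ ≤ (4 * K + 1 + 2 * K ^ 2) / (κ0 ^ 2 - 1) * q := by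
  have hden : 0 < κ0 ^ 2 - 1 := by nlinarith
  have hκpos : 0 < κ := by linarith
  have hq21 : 0 < 1 - q ^ 2 := by nlinarith
  rw [div_mul_eq_mul_div, le_div_iff₀ hden]
  have h1 : (κ0 ^ 2 - 1) * q * τ ≤ (κ ^ 2 - 1) * q * τ := by
    gcongr
  have h3 : (K - q ^ 2) * (1 - 2 * q ^ 2) ≤ κ * s := by
    have : 0 ≤ 1 - 2 * q ^ 2 := by nlinarith
    calc (K - q ^ 2) * (1 - 2 * q ^ 2) ≤ κ * (1 - 2 * q ^ 2) := by gcongr
      _ ≤ κ * s := by gcongr
  have h4 : (1 - q ^ 2) * ((K - q ^ 2) * (1 - 2 * q ^ 2)) ≤ (1 - q ^ 2) * (κ * s) := by gcongr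
  set p : ℝ := q ^ 2 with hp
  have hp0 : 0 ≤ p := by positivity
  have hp1 : p ≤ 1 / 4 := by rw [hp]; nlinarith
  have h2 : K - p - 3 * p * K ≤ (1 - p) * ((K - p) * (1 - 2 * p)) := by
    have e : (1 - p) * ((K - p) * (1 - 2 * p)) - (K - p - 3 * p * K) =
        p ^ 2 * (2 * K + 3 - 2 * p) := by ring
    have : 0 ≤ p ^ 2 * (2 * K + 3 - 2 * p) := mul_nonneg (by positivity) (by linarith)
    linarith
  have h3 : κ ^ 2 * q * E ≤ K ^ 2 * q * (2 * q) := by gcongr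
  have h4' : (κ0 ^ 2 - 1) * q * τ ≤ (4 * K + 1 + 2 * K ^ 2) * q * q := by
    have h6 : (K : ℝ) * (1 + p) - (K - p - 3 * p * K) + K ^ 2 * q * (2 * q) =
        (4 * K + 1 + 2 * K ^ 2) * q * q := by rw [hp]; ring
    linarith
  have h5 : q * (τ * (κ0 ^ 2 - 1)) ≤ q * ((4 * K + 1 + 2 * K ^ 2) * q) := by linarith
  exact le_of_mul_le_mul_left h5 hq0

/-- The total error. -/
noncomputable def errC (R L C1 B : ℝ) : ℝ :=
  R ^ 2 * (R ^ 2 - 1) * C1 ^ 2 + R * L * (R ^ 2 - 1) * C1 * (2 * B ^ 2) + L * (B * 2)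
    + R * (B * 2) + R * (R ^ 2 - 1) * C1 * B

theorem errC_nonneg {R L C1 B : ℝ} (hR : 1 ≤ R) (hL : 0 ≤ L) (hC : 0 ≤ C1) (hB : 0 ≤ B) :
    0 ≤ errC R L C1 B := by
  have hP : 0 ≤ R ^ 2 - 1 := by nlinarith
  have hR0 : 0 < R := by linarith
  have h1 : 0 ≤ R ^ 2 * (R ^ 2 - 1) * C1 ^ 2 := by positivity
  have h2 : 0 ≤ R * L * (R ^ 2 - 1) * C1 * (2 * B ^ 2) := by positivity
  have h3 : 0 ≤ L * (B * 2) := by positivity
  have h4 : 0 ≤ R * (B * 2) := by positivity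
  have h5 : 0 ≤ R * (R ^ 2 - 1) * C1 * B := by positivity
  unfold errC
  linarith

theorem errC_le {R L C1 B q τ E l : ℝ} (hR : 1 ≤ R) (hC : 0 ≤ C1) (hB : 0 ≤ B) (hq0 : 0 < q)
    (hq1 : q ≤ 1) (hτ0 : 0 ≤ τ) (hτ : τ ≤ C1 * q) (hE0 : 0 ≤ E) (hE : E ≤ 2 * q) (hl0 : 0 ≤ l)
    (hlL : l ≤ L) :
    R ^ 2 * (R ^ 2 - 1) * τ ^ 2 + R * l * (R ^ 2 - 1) * τ * (2 * B ^ 2)
        + l * (B * E) + R * (B * E) + R * (R ^ 2 - 1) * τ * B ≤ errC R L C1 B * q := by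
  have hP : 0 ≤ R ^ 2 - 1 := by nlinarith
  have hR0 : 0 < R := by linarith
  have hqq : q ^ 2 ≤ q := by nlinarith
  have h1 : R ^ 2 * (R ^ 2 - 1) * τ ^ 2 ≤ R ^ 2 * (R ^ 2 - 1) * (C1 ^ 2 * q) := by
    have : τ ^ 2 ≤ C1 ^ 2 * q := by
      calc τ ^ 2 ≤ (C1 * q) ^ 2 := by gcongr
        _ = C1 ^ 2 * q ^ 2 := by ring
        _ ≤ C1 ^ 2 * q := by gcongr
    gcongr
  have hL0 : 0 ≤ L := hl0.trans hlL
  have h2 : R * l * (R ^ 2 - 1) * τ * (2 * B ^ 2) ≤ R * L * (R ^ 2 - 1) * (C1 * q) * (2 * B ^ 2) := by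
    gcongr
  have h3 : l * (B * E) ≤ L * (B * (2 * q)) := by gcongr
  have h4 : R * (B * E) ≤ R * (B * (2 * q)) := by gcongr
  have h5 : R * (R ^ 2 - 1) * τ * B ≤ R * (R ^ 2 - 1) * (C1 * q) * B := by gcongr
  unfold errC
  linarith

/-- The final contradiction for one near extremal operator. -/
theorem final (R : ℝ) (hR : 1 ≤ R) (T : H →L[ℂ] H) (G : ℕ → H →L[ℂ] H)
    (hcomm : ∀ n, T * G n = G n * T) (hpos : Pos R T G)
    (B : ℝ) (hB : ∀ n, ‖T ^ n * G (n + 1)‖ ≤ B) (hTB : ∀ n, ‖T ^ n‖ ≤ B)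
    (κ : ℝ) (hκT : ‖T‖ = κ) (hκ' : 2 < R * κ) (hκpos : 0 < κ)
    (x y e : H) (hy : ‖y‖ = 1) (hx : ‖x‖ ≤ 1)
    (hTy : (star T) y = ((κ : ℝ) : ℂ) • x) (he : y = ((κ⁻¹ : ℝ) : ℂ) • T x + e)
    (Q : ℝ) (hQ : ∀ l : ℝ, 0 ≤ l → l ≤ R * (R * κ) →
      R ^ 2 * (R ^ 2 - 1) * ‖inner ℂ y x‖ ^ 2 + R * l * (R ^ 2 - 1) * ‖inner ℂ y x‖ * (2 * B ^ 2)
        + l * (B * ‖e‖) + R * (B * ‖e‖) + R * (R ^ 2 - 1) * ‖inner ℂ y x‖ * B ≤ Q)
    (hneg : 1 + ‖x‖ ^ 2 - (R * κ) * ‖x‖ ^ 2 + Q / R ^ 2 < 0) : False := by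
  have hR0 : 0 < R := by linarith
  have hR2 : 0 < R ^ 2 := by positivity
  have hRκ : 1 ≤ R * κ := by linarith
  set γ : ℕ → ℝ := fun k => (inner ℂ x ((T ^ k * G k) x)).re with hγ
  set lam : ℝ := R * (R * κ - 1) with hlam
  have hlam0 : 0 ≤ lam := by rw [hlam]; exact mul_nonneg hR0.le (by linarith)
  have hlamL : lam ≤ R * (R * κ) := by
    rw [hlam]
    gcongr
    linarith
  have hL0 : 0 ≤ R * (R * κ) := by positivity
  set s : ℝ := ‖x‖ ^ 2 with hs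
  set b0 : ℝ := 1 + s - (R * κ) * s + Q / R ^ 2 with hb0
  have hfin : ∀ (k : ℕ) (l : ℝ), (l = 0 ∨ l = lam) →
      0 ≤ b0 - γ 1 / (R * κ) + l / R ^ 2 * (R * γ k - γ (k + 1) / κ) := by
    intro k l hl
    have hk := key R hR T G hcomm hpos B hB hTB κ hκpos hRκ x y e hy hx hTy he k l hl
    have hl0 : 0 ≤ l := by
      rcases hl with h | h
      · rw [h]
      · rw [h]; exact hlam0
    have hlL : l ≤ R * (R * κ) := by
      rcases hl with h | h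
      · rw [h]; exact hL0
      · rw [h]; exact hlamL
    have hEl := hQ l hl0 hlL
    have h1 : 0 ≤ R ^ 2 * (b0 - γ 1 / (R * κ) + l / R ^ 2 * (R * γ k - γ (k + 1) / κ)) := by
      have e1 : R ^ 2 * (b0 - γ 1 / (R * κ) + l / R ^ 2 * (R * γ k - γ (k + 1) / κ)) =
          R ^ 2 * (1 + s) - R ^ 3 * κ * s - R * (γ 1 / κ) + l * (R * γ k - γ (k + 1) / κ) + Q := by
        rw [hb0]
        field_simp
        ring
      rw [e1]
      have e2 : (inner ℂ x ((T ^ 1 * G 1) x)).re = γ 1 := rfl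
      have e3 : (inner ℂ x ((T ^ k * G k) x)).re = γ k := rfl
      have e4 : (inner ℂ x ((T ^ (k + 1) * G (k + 1)) x)).re = γ (k + 1) := rfl
      rw [e2, e3, e4] at hk
      linarith
    exact nonneg_of_mul_nonneg_right h1 hR2
  refine Pool.Agent.W753.CZ.recursion_false (R * κ) b0 (κ * B) γ hκ' hneg ?_ ?_ ?_
  · have := hfin 0 0 (Or.inl rfl)
    simpa using this
  · intro k _
    have h1 := hfin k lam (Or.inr rfl)
    have e1 : lam / R ^ 2 * (R * γ k - γ (k + 1) / κ) =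
        -((1 - 1 / (R * κ)) * (γ (k + 1) - R * κ * γ k)) := by
      rw [hlam]
      field_simp
      ring
    rw [e1] at h1
    linarith
  · intro k
    have hB0 : 0 ≤ B := (norm_nonneg _).trans (hTB 0)
    have h1 : |γ (k + 1)| ≤ κ * B := by
      calc |γ (k + 1)| ≤ ‖inner ℂ x ((T ^ (k + 1) * G (k + 1)) x)‖ := Complex.abs_re_le_norm _
        _ ≤ ‖x‖ * ‖(T ^ (k + 1) * G (k + 1)) x‖ := norm_inner_le_norm _ _
        _ ≤ 1 * ((κ * B) * 1) := by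
            gcongr
            refine ((T ^ (k + 1) * G (k + 1)).le_opNorm x).trans ?_
            gcongr
            rw [pow_succ', mul_assoc]
            refine (norm_mul_le _ _).trans ?_
            rw [hκT]
            gcongr
            exact hB k
        _ = κ * B := by ring
    exact (abs_le.mp h1).1

/-- The abstract theorem: a family of operators with weighted Toeplitz positivity, closed under the
quadratic Möbius perturbations, has norms at most `max 1 (2 / R)`. -/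
theorem core_bound (R : ℝ) (hR : 1 ≤ R) (B : ℝ) (S : Set (H →L[ℂ] H))
    (hS1 : ∀ T ∈ S, ∃ G : ℕ → H →L[ℂ] H, (∀ n, T * G n = G n * T) ∧ Pos R T G ∧
      (∀ n, ‖T ^ n * G (n + 1)‖ ≤ B) ∧ (∀ n, ‖T ^ n‖ ≤ B))
    (hS2 : ∀ T ∈ S, ∀ a : ℂ, (((1 + ‖a‖ ^ 2)⁻¹ : ℝ) : ℂ) •
      ((T - a • (1 : H →L[ℂ] H)) * (1 + (starRingEnd ℂ) a • T)) ∈ S) :
    ∀ T ∈ S, ‖T‖ ≤ max 1 (2 / R) := by
  intro T0 hT0
  by_contra hcon
  push Not at hcon
  have hR0 : 0 < R := by linarith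
  set m : ℝ := max 1 (2 / R) with hm
  have hm1 : 1 ≤ m := le_max_left _ _
  have hm2 : 2 / R ≤ m := le_max_right _ _
  set N : Set ℝ := (fun T : H →L[ℂ] H => ‖T‖) '' S with hN
  have hbdd : BddAbove N := by
    refine ⟨B, ?_⟩
    rintro _ ⟨T, hT, rfl⟩
    obtain ⟨G, -, -, -, h4⟩ := hS1 T hT
    have := h4 1
    rwa [pow_one] at this
  set K : ℝ := sSup N with hK
  have hKT : ∀ T ∈ S, ‖T‖ ≤ K := fun T hT => le_csSup hbdd ⟨T, hT, rfl⟩
  have hmK : m < K := hcon.trans_le (hKT T0 hT0)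
  have hK0 : 0 < K := by linarith
  have hB0 : 0 ≤ B := by
    obtain ⟨G, -, -, -, h4⟩ := hS1 T0 hT0
    exact (norm_nonneg _).trans (h4 0)
  set κ0 : ℝ := (K + m) / 2 with hκ0
  have hκ01 : 1 < κ0 := by rw [hκ0]; linarith
  have hκ02 : 2 < R * κ0 := by
    have h1 : 2 ≤ R * m := by
      rw [div_le_iff₀ hR0] at hm2; linarith
    have h2 : m < κ0 := by rw [hκ0]; linarith
    have h3 : R * m < R * κ0 := by gcongr
    linarith
  have hκ0K : κ0 < K := by rw [hκ0]; linarith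
  set C1 : ℝ := (4 * K + 1 + 2 * K ^ 2) / (κ0 ^ 2 - 1) with hC1
  have hden : 0 < κ0 ^ 2 - 1 := by nlinarith
  have hC10 : 0 ≤ C1 := by rw [hC1]; positivity
  set L : ℝ := R * (R * K) with hL
  have hL0 : 0 ≤ L := by positivity
  set C2 : ℝ := errC R L C1 B with hC2
  have hC20 : 0 ≤ C2 := errC_nonneg hR hL0 hC10 hB0
  -- the small parameter
  set D : ℝ := 2 * (R * K) + C2 / R ^ 2 + 1 with hD
  have hD0 : 0 < D := by positivity
  set q : ℝ := min (1 / 2) (min ((K - κ0)) ((R * κ0 - 2) / (2 * D))) with hq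
  have hq0 : 0 < q := by
    rw [hq]
    refine lt_min (by norm_num) (lt_min (by linarith) ?_)
    apply div_pos (by linarith)
    positivity
  have hq1 : q ≤ 1 / 2 := min_le_left _ _
  have hq2 : q ≤ K - κ0 := (min_le_right _ _).trans (min_le_left _ _)
  have hq3 : 2 * q * D ≤ R * κ0 - 2 := by
    have h1 : q ≤ (R * κ0 - 2) / (2 * D) :=
      (min_le_right _ _).trans (min_le_right _ _)
    rw [le_div_iff₀ (by positivity)] at h1
    linarith
  clear_value q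
  have hqq : q ^ 2 ≤ q := by nlinarith
  obtain ⟨_, ⟨T, hT, rfl⟩, hTK⟩ := exists_lt_of_lt_csSup (show N.Nonempty from ⟨‖T0‖, T0, hT0, rfl⟩)
    (show K - q ^ 2 < sSup N by rw [← hK]; nlinarith)
  simp only at hTK
  obtain ⟨G, hcomm, hpos, hB, hTB⟩ := hS1 T hT
  set κ := ‖T‖ with hκ
  have hκK : κ ≤ K := hKT T hT
  have hκκ0 : κ0 < κ := by linarith
  have hκpos : 0 < κ := by linarith
  obtain ⟨x, y, e, hy, hx1, hsl, he2, hTy, hye⟩ := vectors T κ rfl hκpos q hq0 hq1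
  have hMT : ∀ a : ℂ, ‖(T - a • (1 : H →L[ℂ] H)) * (1 + (starRingEnd ℂ) a • T)‖ ≤
      K * (1 + ‖a‖ ^ 2) := by
    intro a
    have h1 := hKT _ (hS2 T hT a)
    have h2 : 0 < 1 + ‖a‖ ^ 2 := by positivity
    rw [norm_smul, Complex.norm_real, Real.norm_of_nonneg (by positivity), inv_mul_le_iff₀ h2] at h1
    linarith
  have horth := orth T K hMT κ hκpos x y e hy hx1 hTy hye q hq0
  have hτ1 : ‖inner ℂ y x‖ ≤ C1 * q := overlap K κ κ0 q (‖x‖ ^ 2) ‖inner ℂ y x‖ ‖e‖ hK0 hκ01 hκκ0 hκK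
    hTK hq0 hq1 hsl (norm_nonneg _) he2 (norm_nonneg _) horth
  refine final R hR T G hcomm hpos B hB hTB κ rfl ?_ hκpos x y e hy hx1 hTy hye (C2 * q) ?_ ?_
  · have : R * κ0 < R * κ := by gcongr
    linarith
  · intro l hl0 hlL
    refine errC_le hR hC10 hB0 hq0 (by linarith) (norm_nonneg _) hτ1 (norm_nonneg _) he2 hl0 ?_
    refine hlL.trans ?_
    rw [hL]
    gcongr
  · have h3 : R * κ0 < R * κ := by gcongr
    have h1 : 0 < R * κ - 1 := by linarith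
    have h2 : (R * κ - 1) * (1 - 2 * q ^ 2) ≤ (R * κ - 1) * ‖x‖ ^ 2 := by gcongr
    have h4 : (R * κ - 1) * q ^ 2 ≤ (R * K) * q := by
      have h5 : R * κ ≤ R * K := by gcongr
      have : R * κ - 1 ≤ R * K := by linarith
      gcongr
    have h5 : C2 * q / R ^ 2 = q * (C2 / R ^ 2) := by ring
    have h6 : 2 * q * D = 2 * (q * (2 * (R * K))) + 2 * (q * (C2 / R ^ 2)) + 2 * q := by
      rw [hD]; ring
    have h7 : 0 ≤ q * (C2 / R ^ 2) := by positivity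
    have h8 : 0 ≤ q * (2 * (R * K)) := by positivity
    rw [h5]
    linarith

end Pool.Agent.V110.QN
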