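import Pool.Agent.W753.CZ.Curve
import Pool.Agent.V110.QN.CoreQ

set_option autoImplicit false

open MeasureTheory Set Filter Topology Complex

namespace Pool.Agent.V110.QN

open Pool.Agent.W753.CZ

variable {H : Type*} [NormedAddCommGroup H] [InnerProductSpace ℂ H] [CompleteSpace H]

open Polynomial in
/-- The operator valued kernel along an envelope curve. -/
theorem curve_data (A : H →L[ℂ] H) (Hf H1 H2 : ℝ → ℝ) (h1 : ∀ φ, HasDerivAt Hf (H1 φ) φ)
    (h2 : ∀ φ, HasDerivAt H1 (H2 φ) φ) (h2c : Continuous H2) (hp0 : Hf (2 * Real.pi) = Hf 0)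
    (hp1 : H1 (2 * Real.pi) = H1 0) (c : ℝ) (hc : 0 < c)
    (hcoer : ∀ (φ : ℝ) (u : H), (exp (-φ * I) * inner ℂ u (A u)).re ≤ (Hf φ - c) * ‖u‖ ^ 2) :
    ∃ X : ℝ → H →L[ℂ] H, Continuous X ∧
      (∀ (φ : ℝ) (u : H), ∃ v : H, X φ u = ((Hf φ + H2 φ : ℝ) : ℂ) • v ∧
        ((Hf φ : ℂ) + (H1 φ : ℂ) * I) • v - exp (-φ * I) • A v = u) ∧
      (∀ q : ℂ[X], ∫ φ in (0 : ℝ)..(2 * Real.pi), q.eval (sg Hf H1 φ) • X φ =
        ((2 * Real.pi : ℝ) : ℂ) • aeval A q) ∧
      (∀ φ, Commute A (X φ)) := by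
  set π2 : ℝ := 2 * Real.pi with hπ2
  have hπ : (0 : ℝ) < π2 := by rw [hπ2]; positivity
  have hHc : Continuous Hf := continuous_iff_continuousAt.mpr fun φ => (h1 φ).continuousAt
  have hH1c : Continuous H1 := continuous_iff_continuousAt.mpr fun φ => (h2 φ).continuousAt
  set β : ℝ → ℂ := fun φ => (Hf φ : ℂ) + (H1 φ : ℂ) * I with hβ
  set B : ℝ → H →L[ℂ] H := fun φ => β φ • (1 : H →L[ℂ] H) - exp (-φ * I) • A with hB
  set B' : ℝ → H →L[ℂ] H := fun φ => ((H1 φ : ℂ) + (H2 φ : ℂ) * I) • (1 : H →L[ℂ] H)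
    - (-I * exp (-φ * I)) • A with hB'
  set ρ : ℝ → ℂ := fun φ => ((Hf φ + H2 φ : ℝ) : ℂ) with hρd
  have hder : ∀ φ, HasDerivAt B (B' φ) φ := by
    intro φ
    have e1 : HasDerivAt β ((H1 φ : ℂ) + (H2 φ : ℂ) * I) φ :=
      (h1 φ).ofReal_comp.add ((h2 φ).ofReal_comp.mul_const I)
    exact (e1.smul_const (1 : H →L[ℂ] H)).sub ((hasDerivAt_expI' φ).smul_const A)
  have hB'c : Continuous B' := by
    rw [hB']
    fun_prop
  have hBc : Continuous B := continuous_iff_continuousAt.mpr fun φ => (hder φ).continuousAt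
  have hper : B π2 = B 0 := by
    rw [hB, hβ]
    simp only
    rw [hp0, hp1]
    have : exp (-(π2 : ℂ) * I) = exp (-((0 : ℝ) : ℂ) * I) := by
      rw [hπ2]
      push_cast
      rw [neg_mul, Complex.exp_neg, Complex.exp_two_pi_mul_I]
      simp
    rw [this]
  have hreB : ∀ φ u, c * ‖u‖ ^ 2 ≤ (inner ℂ u (B φ u)).re := by
    intro φ u
    have e : (inner ℂ u (B φ u)).re = Hf φ * ‖u‖ ^ 2 - (exp (-φ * I) * inner ℂ u (A u)).re := by
      rw [hB, hβ]
      simp only [sub_apply, smul_apply, inner_sub_right, inner_smul_right, sub_re]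
      have e1 : inner ℂ u ((1 : H →L[ℂ] H) u) = ((‖u‖ ^ 2 : ℝ) : ℂ) := by
        rw [one_apply_eq_self, inner_self_eq_norm_sq_to_K]
        norm_cast
      have e2 : (((Hf φ : ℂ) + (H1 φ : ℂ) * I) * ((‖u‖ ^ 2 : ℝ) : ℂ)).re = Hf φ * ‖u‖ ^ 2 := by
        rw [mul_comm, re_ofReal_mul]
        simp
        ring
      rw [e1, e2]
    rw [e]
    have := hcoer φ u
    linarith
  have hunit : ∀ t ∈ Icc (0 : ℝ) 1, ∀ φ, IsUnit ((1 - t) • (1 : H →L[ℂ] H) + t • B φ) := by
    intro t ht φ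
    have hmin : 0 < min 1 c := lt_min one_pos hc
    apply ContinuousLinearMap.isUnit_of_forall_le_norm_inner_map _ (c := ⟨min 1 c, hmin.le⟩) hmin
    intro u
    have e0 : (inner ℂ u (((1 - t) • (1 : H →L[ℂ] H) + t • B φ) u)).re =
        (1 - t) * ‖u‖ ^ 2 + t * (inner ℂ u (B φ u)).re := by
      rw [add_apply, smul_apply, smul_apply, inner_add_right, one_apply_eq_self,
        add_re, ← Complex.coe_smul, ← Complex.coe_smul, inner_smul_right, inner_smul_right,
        re_ofReal_mul, re_ofReal_mul, inner_self_eq_norm_sq_to_K]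
      norm_cast
    have e1 : min 1 c * ‖u‖ ^ 2 ≤ (inner ℂ u (((1 - t) • (1 : H →L[ℂ] H) + t • B φ) u)).re := by
      rw [e0]
      have h3 := hreB φ u
      have h4 : min 1 c ≤ 1 := min_le_left _ _
      have h5 : min 1 c ≤ c := min_le_right _ _
      have h6 := sq_nonneg ‖u‖
      have h7 : min 1 c * ‖u‖ ^ 2 ≤ c * ‖u‖ ^ 2 := by gcongr
      have h8 : min 1 c * ‖u‖ ^ 2 ≤ 1 * ‖u‖ ^ 2 := by gcongr
      nlinarith [ht.1, ht.2]
    calc ‖u‖ ^ 2 * min 1 c = min 1 c * ‖u‖ ^ 2 := mul_comm _ _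
      _ ≤ _ := e1
      _ ≤ ‖inner ℂ u (((1 - t) • (1 : H →L[ℂ] H) + t • B φ) u)‖ := re_le_norm _
      _ = _ := norm_inner_symm _ _
  have hunitB : ∀ φ, IsUnit (B φ) := by
    intro φ
    have := hunit 1 (by simp) φ
    simpa using this
  set N : ℝ → H →L[ℂ] H := fun φ => Ring.inverse (B φ) with hN
  have hBN : ∀ φ, B φ * N φ = 1 := fun φ => Ring.mul_inverse_cancel _ (hunitB φ)
  have hNB : ∀ φ, N φ * B φ = 1 := fun φ => Ring.inverse_mul_cancel _ (hunitB φ)
  have hNc : Continuous N := by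
    rw [continuous_iff_continuousAt]
    intro φ
    obtain ⟨u, hu⟩ := hunitB φ
    have h1 : ContinuousAt Ring.inverse (B φ) := by
      have := NormedRing.inverse_continuousAt u
      rw [hu] at this
      exact this
    exact h1.comp hBc.continuousAt
  set X : ℝ → H →L[ℂ] H := fun φ => ρ φ • N φ with hX
  have hXc : Continuous X := by
    have : Continuous ρ := by rw [hρd]; fun_prop
    exact this.smul hNc
  have hBB' : ∀ φ, B' φ = (I * ρ φ) • (1 : H →L[ℂ] H) - I • B φ := by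
    intro φ
    rw [hB', hB, hβ, hρd]
    simp only
    push_cast
    rw [smul_sub, smul_smul, smul_smul, sub_sub_eq_add_sub, add_comm _ ((I * exp (-φ * I)) • A),
      add_sub_assoc, ← sub_smul]
    rw [neg_mul, neg_smul, sub_neg_eq_add, add_comm]
    congr 2
    linear_combination (H1 φ : ℂ) * I_sq
  have hlog : ∫ φ in (0 : ℝ)..π2, B' φ * N φ = 0 := by
    apply logder_zero B B' 0 π2 hder hB'c hper hunit
    intro φ
    rw [hBB']
    exact (((Commute.one_left _).smul_left _)).sub_left ((Commute.refl _).smul_left _)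
  have hBN' : ∀ φ, B' φ * N φ = I • X φ - I • (1 : H →L[ℂ] H) := by
    intro φ
    rw [hBB' φ, sub_mul, smul_mul_assoc, smul_mul_assoc, one_mul, hBN, hX]
    simp only
    rw [smul_smul]
  have hXint : ∫ φ in (0 : ℝ)..π2, X φ = (π2 : ℂ) • (1 : H →L[ℂ] H) := by
    have e1 : ∫ φ in (0 : ℝ)..π2, (I • X φ - I • (1 : H →L[ℂ] H)) = 0 := by
      rw [← hlog]
      exact intervalIntegral.integral_congr fun φ _ => (hBN' φ).symm
    have hi1 : IntervalIntegrable (fun φ => I • X φ) volume 0 π2 :=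
      Continuous.intervalIntegrable (by fun_prop) _ _
    rw [intervalIntegral.integral_sub hi1
      (continuous_const.intervalIntegrable _ _), intervalIntegral.integral_smul,
      intervalIntegral.integral_const, sub_zero] at e1
    have e2 : I • (∫ φ in (0 : ℝ)..π2, X φ) = I • ((π2 : ℂ) • (1 : H →L[ℂ] H)) := by
      rw [sub_eq_zero.mp e1, smul_comm, Complex.coe_smul]
    have e3 := congrArg (fun Y => (-I) • Y) e2
    simpa [smul_smul] using e3
  set s : ℝ → ℂ := sg Hf H1 with hs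
  have hsd : ∀ φ : ℝ, HasDerivAt s (I * exp (φ * I) * ρ φ) φ := sg_deriv Hf H1 H2 h1 h2
  have hsc : Continuous s := continuous_iff_continuousAt.mpr fun φ => (hsd φ).continuousAt
  have hsper : s π2 = s 0 := by
    rw [hs]
    unfold sg
    rw [hp0, hp1, hπ2]
    push_cast
    rw [Complex.exp_two_pi_mul_I]
    simp
  have hρc : Continuous ρ := by rw [hρd]; fun_prop
  have hexpc : Continuous (fun φ : ℝ => exp ((φ : ℂ) * I)) := by fun_prop
  have hmom0 : ∀ n : ℕ, ∫ φ in (0 : ℝ)..π2, s φ ^ n * ρ φ * exp (φ * I) = 0 := by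
    intro n
    have hd : ∀ φ ∈ uIcc (0 : ℝ) π2, HasDerivAt (fun φ => -I * (s φ ^ (n + 1) / ((n : ℂ) + 1)))
        (s φ ^ n * ρ φ * exp (φ * I)) φ := by
      intro φ _
      have := (((hsd φ).pow (n + 1)).div_const ((n : ℂ) + 1)).const_mul (-I)
      refine this.congr_deriv ?_
      have hn : (n : ℂ) + 1 ≠ 0 := Nat.cast_add_one_ne_zero n
      rw [Nat.add_sub_cancel]
      push_cast
      calc -I * (((n : ℂ) + 1) * s φ ^ n * (I * exp (φ * I) * ρ φ) / ((n : ℂ) + 1)) =
            (-(I ^ 2)) * (s φ ^ n * ρ φ * exp (φ * I)) * (((n : ℂ) + 1) / ((n : ℂ) + 1)) := by ring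
        _ = _ := by rw [div_self hn, I_sq]; ring
    rw [intervalIntegral.integral_eq_sub_of_hasDerivAt hd
      (by apply Continuous.intervalIntegrable; fun_prop)]
    rw [hsper, sub_self]
  have hsN : ∀ φ, s φ • N φ = exp (φ * I) • (1 : H →L[ℂ] H) + A * N φ := by
    intro φ
    have e1 : s φ • (1 : H →L[ℂ] H) - A = exp (φ * I) • B φ := by
      rw [hB, hs]
      unfold sg
      simp only
      rw [smul_sub, smul_smul, smul_smul, ← Complex.exp_add, neg_mul, add_neg_cancel,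
        Complex.exp_zero, one_smul]
    have e2 : (s φ • (1 : H →L[ℂ] H) - A) * N φ = (exp (φ * I) • B φ) * N φ := by rw [e1]
    rw [sub_mul, smul_mul_assoc, smul_mul_assoc, one_mul, hBN] at e2
    rw [← e2]
    abel
  have hmon : ∀ n : ℕ, ∫ φ in (0 : ℝ)..π2, s φ ^ n • X φ = (π2 : ℂ) • A ^ n := by
    intro n
    induction n with
    | zero => simpa using hXint
    | succ n ih =>
      have e1 : ∀ φ, s φ ^ (n + 1) • X φ = (s φ ^ n * ρ φ * exp (φ * I)) • (1 : H →L[ℂ] H)
          + A * (s φ ^ n • X φ) := by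
        intro φ
        have : s φ ^ (n + 1) • X φ = (s φ ^ n * ρ φ) • (s φ • N φ) := by
          show s φ ^ (n + 1) • (ρ φ • N φ) = _
          rw [smul_smul, smul_smul]
          congr 1
          ring
        rw [this, hsN, smul_add, smul_smul]
        show _ = _ + A * (s φ ^ n • (ρ φ • N φ))
        rw [smul_smul, mul_smul_comm]
      rw [intervalIntegral.integral_congr (fun φ _ => e1 φ), intervalIntegral.integral_add
        (by apply Continuous.intervalIntegrable; fun_prop)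
        (by apply Continuous.intervalIntegrable; fun_prop)]
      have e2 : ∫ φ in (0 : ℝ)..π2, (s φ ^ n * ρ φ * exp (φ * I)) • (1 : H →L[ℂ] H) = 0 := by
        rw [intervalIntegral.integral_smul_const, hmom0, zero_smul]
      have e3 : ∫ φ in (0 : ℝ)..π2, A * (s φ ^ n • X φ) = A * ((π2 : ℂ) • A ^ n) := by
        rw [← ih]
        exact ContinuousLinearMap.intervalIntegral_comp_comm
          (ContinuousLinearMap.mul ℂ (H →L[ℂ] H) A)
          (by apply Continuous.intervalIntegrable; fun_prop)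
      rw [e2, e3, zero_add, mul_smul_comm, pow_succ']
  have hpoly : ∀ q : ℂ[X], ∫ φ in (0 : ℝ)..π2, q.eval (s φ) • X φ = (π2 : ℂ) • aeval A q := by
    intro q
    induction q using Polynomial.induction_on' with
    | add q r hq hr =>
      simp only [eval_add, add_smul, map_add, smul_add]
      rw [intervalIntegral.integral_add (by apply Continuous.intervalIntegrable; fun_prop)
        (by apply Continuous.intervalIntegrable; fun_prop), hq, hr]
    | monomial n a =>
      simp only [eval_monomial, aeval_monomial, mul_smul]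
      rw [intervalIntegral.integral_smul, hmon, smul_comm, Algebra.algebraMap_eq_smul_one,
        smul_mul_assoc, one_mul]
  refine ⟨X, hXc, fun φ u => ⟨N φ u, rfl, ?_⟩, hpoly, fun φ => ?_⟩
  · have := congrArg (fun Y : H →L[ℂ] H => Y u) (hBN φ)
    exact this
  · have e1 : Commute A (B φ) := by
      rw [hB]
      exact ((Commute.one_right A).smul_right _).sub_right ((Commute.refl A).smul_right _)
    have e2 : Commute A (N φ) := by
      show A * N φ = N φ * A
      calc A * N φ = (N φ * B φ) * (A * N φ) := by rw [hNB, one_mul]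
        _ = N φ * (B φ * A) * N φ := by simp only [mul_assoc]
        _ = N φ * (A * B φ) * N φ := by rw [e1.eq]
        _ = N φ * A * (B φ * N φ) := by simp only [mul_assoc]
        _ = N φ * A := by rw [hBN, mul_one]
    exact e2.smul_right (ρ φ)

omit [CompleteSpace H] in
/-- Pointwise weighted positivity from the sector condition. -/
theorem weighted_nonneg (μ R : ℝ) (hμ0 : 0 ≤ μ) (hμ1 : μ < 1) (hR : R ^ 2 * (1 - μ) = 1 + μ)
    (y : H) (hy : ‖y‖ = 1) (u v : H) (h : μ * ‖v‖ * ‖u‖ ≤ (inner ℂ v u).re) :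
    0 ≤ (inner ℂ u (Lam R y v)).re := by
  set W : H := u - (2 : ℂ) • (inner ℂ y u • y) with hW
  have hyy : inner ℂ y y = 1 := by
    rw [inner_self_eq_norm_sq_to_K, hy]; simp
  have hWn : ‖W‖ ^ 2 = ‖u‖ ^ 2 := by
    have e1 : inner ℂ W W = inner ℂ u u := by
      rw [hW, inner_sub_left, inner_sub_right, inner_sub_right, inner_smul_left, inner_smul_left,
        inner_smul_left, inner_smul_left, inner_smul_right, inner_smul_right, inner_smul_right,
        inner_smul_right, hyy, inner_conj_symm]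
      have : (starRingEnd ℂ) (2 : ℂ) = 2 := by
        have := Complex.conj_ofReal 2
        exact_mod_cast this
      rw [this]
      ring
    have e2 : ((‖W‖ ^ 2 : ℝ) : ℂ) = ((‖u‖ ^ 2 : ℝ) : ℂ) := by
      have e3 := inner_self_eq_norm_sq_to_K (𝕜 := ℂ) W
      have e4 := inner_self_eq_norm_sq_to_K (𝕜 := ℂ) u
      rw [e1, e4] at e3
      push_cast
      exact e3.symm
    exact_mod_cast e2
  have hWn' : ‖W‖ = ‖u‖ := by
    rw [← abs_of_nonneg (norm_nonneg W), ← abs_of_nonneg (norm_nonneg u)]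
    exact (sq_eq_sq_iff_abs_eq_abs _ _).mp hWn
  have hkey : (1 - μ) * (inner ℂ u (Lam R y v)).re = (inner ℂ u v).re - μ * (inner ℂ W v).re := by
    have e1 : inner ℂ u (Lam R y v) = inner ℂ u v + ((R ^ 2 - 1 : ℝ) : ℂ) * (inner ℂ y v * inner ℂ u y) := by
      rw [Lam_apply, inner_add_right, inner_smul_right, inner_smul_right]
    have e2 : inner ℂ W v = inner ℂ u v - 2 * (inner ℂ y v * inner ℂ u y) := by
      rw [hW, inner_sub_left, inner_smul_left, inner_smul_left, inner_conj_symm]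
      have : (starRingEnd ℂ) (2 : ℂ) = 2 := by
        have := Complex.conj_ofReal 2
        exact_mod_cast this
      rw [this]
      ring
    have e3 : (2 * (inner ℂ y v * inner ℂ u y)).re = 2 * (inner ℂ y v * inner ℂ u y).re := by
      have : (2 : ℂ) = ((2 : ℝ) : ℂ) := by norm_num
      rw [this, Complex.re_ofReal_mul]
    rw [e1, e2, Complex.add_re, Complex.re_ofReal_mul, Complex.sub_re, e3]
    have : (1 - μ) * (R ^ 2 - 1) = 2 * μ := by linarith
    linear_combination (inner ℂ y v * inner ℂ u y).re * this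
  have hle : (inner ℂ W v).re ≤ ‖u‖ * ‖v‖ := by
    refine (Complex.re_le_norm _).trans ((norm_inner_le_norm _ _).trans ?_)
    rw [hWn']
  have hsym : (inner ℂ v u).re = (inner ℂ u v).re := inner_re_symm (𝕜 := ℂ) _ _
  have h1 : 0 ≤ (1 - μ) * (inner ℂ u (Lam R y v)).re := by
    rw [hkey]
    have : μ * (inner ℂ W v).re ≤ μ * (‖u‖ * ‖v‖) := by gcongr
    rw [hsym] at h
    linarith
  exact nonneg_of_mul_nonneg_right h1 (by linarith)

theorem moebius_ineq (a z : ℂ) (hz : ‖z‖ ≤ 1) :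
    ‖(z - a) * (1 + (starRingEnd ℂ) a * z)‖ ≤ 1 + ‖a‖ ^ 2 := by
  rw [norm_mul]
  have e1 : ‖z - a‖ ^ 2 + ‖1 + (starRingEnd ℂ) a * z‖ ^ 2 = (1 + ‖a‖ ^ 2) * (1 + ‖z‖ ^ 2) := by
    rw [← Complex.normSq_eq_norm_sq, ← Complex.normSq_eq_norm_sq, ← Complex.normSq_eq_norm_sq,
      ← Complex.normSq_eq_norm_sq, Complex.normSq_apply, Complex.normSq_apply, Complex.normSq_apply,
      Complex.normSq_apply]
    simp only [Complex.sub_re, Complex.sub_im, Complex.add_re, Complex.add_im, Complex.mul_re,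
      Complex.mul_im, Complex.conj_re, Complex.conj_im, Complex.one_re, Complex.one_im]
    ring
  have h1 : ‖z‖ ^ 2 ≤ 1 := pow_le_one₀ (norm_nonneg z) hz
  have h2 : 2 * (‖z - a‖ * ‖1 + (starRingEnd ℂ) a * z‖) ≤
      ‖z - a‖ ^ 2 + ‖1 + (starRingEnd ℂ) a * z‖ ^ 2 := by
    nlinarith [sq_nonneg (‖z - a‖ - ‖1 + (starRingEnd ℂ) a * z‖)]
  nlinarith [sq_nonneg ‖a‖]

open Polynomial in
/-- The bound along an envelope curve with the sector condition. -/
theorem curve_boundQ (A : H →L[ℂ] H) (Hf H1 H2 : ℝ → ℝ) (h1 : ∀ φ, HasDerivAt Hf (H1 φ) φ)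
    (h2 : ∀ φ, HasDerivAt H1 (H2 φ) φ) (h2c : Continuous H2) (hp0 : Hf (2 * Real.pi) = Hf 0)
    (hp1 : H1 (2 * Real.pi) = H1 0) (hρ : ∀ φ, 0 ≤ Hf φ + H2 φ) (c : ℝ) (hc : 0 < c)
    (hcoer : ∀ (φ : ℝ) (u : H), (exp (-φ * I) * inner ℂ u (A u)).re ≤ (Hf φ - c) * ‖u‖ ^ 2)
    (μ R : ℝ) (hμ0 : 0 ≤ μ) (hμ1 : μ < 1) (hR1 : 1 ≤ R) (hR : R ^ 2 * (1 - μ) = 1 + μ)
    (hsec : ∀ (φ : ℝ) (v : H), μ * ‖v‖ * ‖((Hf φ : ℂ) + (H1 φ : ℂ) * I) • v - exp (-φ * I) • A v‖ ≤
      (inner ℂ v (((Hf φ : ℂ) + (H1 φ : ℂ) * I) • v - exp (-φ * I) • A v)).re)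
    (p : ℂ[X]) (M : ℝ) (hM0 : 0 < M) (hM : ∀ φ, ‖p.eval (sg Hf H1 φ)‖ ≤ M) :
    ‖aeval A p‖ ≤ max 1 (2 / R) * M := by
  obtain ⟨X, hXc, hXv, hpoly, hAX⟩ := curve_data A Hf H1 H2 h1 h2 h2c hp0 hp1 c hc hcoer
  set π2 : ℝ := 2 * Real.pi with hπ2
  have hπ : (0 : ℝ) < π2 := by rw [hπ2]; positivity
  have hπc : (π2 : ℂ) ≠ 0 := by exact_mod_cast hπ.ne'
  set s : ℝ → ℂ := sg Hf H1 with hs
  have hsc : Continuous s := continuous_iff_continuousAt.mpr fun φ =>
    (sg_deriv Hf H1 H2 h1 h2 φ).continuousAt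
  obtain ⟨K, hK⟩ := (isCompact_uIcc (a := (0 : ℝ)) (b := π2)).exists_bound_of_continuousOn
    hXc.continuousOn
  have hwb : ∀ w : ℝ → ℂ, (∀ φ, ‖w φ‖ ≤ 1) →
      ‖((π2 : ℂ)⁻¹) • ∫ φ in (0 : ℝ)..π2, w φ • X φ‖ ≤ K := by
    intro w hw
    rw [norm_smul, norm_inv, Complex.norm_real, Real.norm_eq_abs, abs_of_pos hπ,
      inv_mul_le_iff₀ hπ]
    have := intervalIntegral.norm_integral_le_of_norm_le_const (a := (0 : ℝ)) (b := π2)
      (f := fun φ => w φ • X φ) (C := K) (fun φ hφ => by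
        rw [norm_smul]
        calc ‖w φ‖ * ‖X φ‖ ≤ 1 * ‖X φ‖ := by gcongr; exact hw φ
          _ = ‖X φ‖ := one_mul _
          _ ≤ K := hK φ (uIoc_subset_uIcc hφ))
    rw [sub_zero, abs_of_pos hπ] at this
    linarith
  have hK0 : 0 ≤ K := (norm_nonneg _).trans (hwb (fun _ => 0) (fun _ => by simp))
  have hre : ∀ (Y : ℝ → H →L[ℂ] H), Continuous Y → ∀ v u : H,
      ∫ φ in (0 : ℝ)..π2, (inner ℂ v (Y φ u)).re =
        (inner ℂ v ((∫ φ in (0 : ℝ)..π2, Y φ) u)).re := by
    intro Y hY v u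
    have e1 := ContinuousLinearMap.intervalIntegral_comp_comm
      ((innerSL ℂ v).comp (ContinuousLinearMap.apply ℂ H u)) (f := Y) (a := (0 : ℝ)) (b := π2) (μ := volume)
      (hY.intervalIntegrable _ _)
    have hYc : Continuous (fun φ => inner ℂ v (Y φ u)) := by fun_prop
    have e2 := ContinuousLinearMap.intervalIntegral_comp_comm Complex.reCLM
      (f := fun φ => inner ℂ v (Y φ u)) (a := (0 : ℝ)) (b := π2) (μ := volume)
      (hYc.intervalIntegrable _ _)
    have e3 : ∫ φ in (0 : ℝ)..π2, inner ℂ v (Y φ u) =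
        inner ℂ v ((∫ φ in (0 : ℝ)..π2, Y φ) u) := e1
    rw [← e3]
    exact e2
  have hrec : ∀ (Y : ℝ → H →L[ℂ] H), Continuous Y → ∀ v u : H,
      IntervalIntegrable (fun φ => (inner ℂ v (Y φ u)).re) volume 0 π2 := by
    intro Y hY v u
    apply Continuous.intervalIntegrable
    have hYc : Continuous (fun φ => inner ℂ v (Y φ u)) := by fun_prop
    exact Complex.continuous_re.comp hYc
  set S : Set (H →L[ℂ] H) := {T | ∃ f : ℂ[X], T = aeval A f ∧ ∀ φ, ‖f.eval (s φ)‖ ≤ 1} with hS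
  have hmain := core_bound R hR1 (max K (K * K)) S ?_ ?_
  · -- conclusion
    set f : ℂ[X] := C ((M : ℂ)⁻¹) * p with hf
    have hz1 : ∀ φ, ‖f.eval (s φ)‖ ≤ 1 := by
      intro φ
      rw [hf]
      simp only [eval_mul, eval_C]
      rw [norm_mul, norm_inv, Complex.norm_real, Real.norm_eq_abs, abs_of_pos hM0,
        inv_mul_le_iff₀ hM0, mul_one]
      exact hM φ
    have h := hmain (aeval A f) ⟨f, rfl, hz1⟩
    have e : aeval A p = (M : ℂ) • aeval A f := by
      rw [hf, map_mul, aeval_C, Algebra.algebraMap_eq_smul_one, smul_mul_assoc, one_mul,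
        smul_smul, mul_inv_cancel₀ (by exact_mod_cast hM0.ne'), one_smul]
    rw [e, norm_smul, Complex.norm_real, Real.norm_eq_abs, abs_of_pos hM0, mul_comm]
    gcongr
  · -- positivity
    rintro T ⟨f, rfl, hz1⟩
    set z : ℝ → ℂ := fun φ => f.eval (s φ) with hz
    have hzc : Continuous z := by rw [hz]; fun_prop
    set T : H →L[ℂ] H := aeval A f with hT
    have hTn : ∀ n : ℕ, ∫ φ in (0 : ℝ)..π2, z φ ^ n • X φ = (π2 : ℂ) • T ^ n := by
      intro n
      have := hpoly (f ^ n)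
      rw [map_pow] at this
      rw [← this]
      apply intervalIntegral.integral_congr
      intro φ _
      simp only [eval_pow]
      rfl
    have hstarc : Continuous (fun φ => star (z φ)) := hzc.star
    set G : ℕ → H →L[ℂ] H := fun n => ((π2 : ℂ)⁻¹) • ∫ φ in (0 : ℝ)..π2, star (z φ) ^ n • X φ with hG
    have hGn : ∀ n : ℕ, ∫ φ in (0 : ℝ)..π2, star (z φ) ^ n • X φ = (π2 : ℂ) • G n := by
      intro n
      rw [hG]
      simp only
      rw [smul_smul, mul_inv_cancel₀ hπc, one_smul]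
    have hTX : ∀ φ, T * X φ = X φ * T := by
      intro φ
      exact (commute_aeval (hAX φ) f).eq
    have hcomm : ∀ n, T * G n = G n * T := by
      intro n
      have i1 : IntervalIntegrable (fun φ => star (z φ) ^ n • X φ) volume 0 π2 := by
        apply Continuous.intervalIntegrable; fun_prop
      have e1 : T * (∫ φ in (0 : ℝ)..π2, star (z φ) ^ n • X φ) =
          ∫ φ in (0 : ℝ)..π2, T * (star (z φ) ^ n • X φ) :=
        (ContinuousLinearMap.intervalIntegral_comp_comm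
            (ContinuousLinearMap.mul ℂ (H →L[ℂ] H) T) i1).symm
      have e2 : (∫ φ in (0 : ℝ)..π2, star (z φ) ^ n • X φ) * T =
          ∫ φ in (0 : ℝ)..π2, (star (z φ) ^ n • X φ) * T :=
        (ContinuousLinearMap.intervalIntegral_comp_comm
            ((ContinuousLinearMap.mul ℂ (H →L[ℂ] H)).flip T) i1).symm
      rw [hG]
      simp only
      rw [mul_smul_comm, smul_mul_assoc, e1, e2]
      congr 1
      apply intervalIntegral.integral_congr
      intro φ _
      simp only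
      rw [mul_smul_comm, smul_mul_assoc, hTX]
    have hTb : ∀ n : ℕ, ‖T ^ n‖ ≤ K := by
      intro n
      have e : T ^ n = ((π2 : ℂ)⁻¹) • ∫ φ in (0 : ℝ)..π2, z φ ^ n • X φ := by
        rw [hTn, smul_smul, inv_mul_cancel₀ hπc, one_smul]
      rw [e]
      apply hwb
      intro φ
      rw [norm_pow]
      exact pow_le_one₀ (norm_nonneg _) (hz1 φ)
    have hGb : ∀ n : ℕ, ‖G n‖ ≤ K := by
      intro n
      apply hwb
      intro φ
      rw [norm_pow, norm_star]
      exact pow_le_one₀ (norm_nonneg _) (hz1 φ)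
    refine ⟨G, hcomm, ?_, fun n => ?_, fun n => (hTb n).trans (le_max_left _ _)⟩
    · intro y hy k a b c
      set Λ : H →L[ℂ] H := Lam R y with hΛ
      have hX' : ∀ φ u, 0 ≤ (inner ℂ u ((Λ * X φ) u)).re := by
        intro φ u
        obtain ⟨v, hv1, hv2⟩ := hXv φ u
        have h3 := hsec φ v
        rw [hv2] at h3
        have h4 := weighted_nonneg μ R hμ0 hμ1 hR y hy u v h3
        change 0 ≤ (inner ℂ u (Λ (X φ u))).re
        rw [hv1, map_smul, inner_smul_right, Complex.re_ofReal_mul]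
        exact mul_nonneg (hρ φ) h4
      have hΛXc : Continuous (fun φ => Λ * X φ) := by fun_prop
      have hzk : ∀ n : ℕ, Continuous (fun φ => z φ ^ n • (Λ * X φ)) := fun n => by fun_prop
      have hwk : ∀ n : ℕ, Continuous (fun φ => star (z φ) ^ n • (Λ * X φ)) := fun n => by fun_prop
      have h0 : 0 ≤ ∫ φ in (0 : ℝ)..π2, ((inner ℂ a ((Λ * X φ) a)).re
          + (inner ℂ b ((Λ * X φ) b)).re
          + (inner ℂ c ((Λ * X φ) c)).re
          + ((inner ℂ b ((z φ ^ k • (Λ * X φ)) a)).re + (inner ℂ a ((star (z φ) ^ k • (Λ * X φ)) b)).re)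
          + ((inner ℂ c ((z φ ^ (k + 1) • (Λ * X φ)) a)).re
            + (inner ℂ a ((star (z φ) ^ (k + 1) • (Λ * X φ)) c)).re)
          + ((inner ℂ c ((z φ ^ 1 • (Λ * X φ)) b)).re
            + (inner ℂ b ((star (z φ) ^ 1 • (Λ * X φ)) c)).re)) :=
        intervalIntegral.integral_nonneg hπ.le
          (fun φ _ => sos_nonneg (Λ * X φ) (hX' φ) (z φ) (hz1 φ) k a b c)
      have hΛint : ∀ w : ℝ → ℂ, Continuous w → ∫ φ in (0 : ℝ)..π2, w φ • (Λ * X φ) =
          Λ * ∫ φ in (0 : ℝ)..π2, w φ • X φ := by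
        intro w hw
        have i1 : IntervalIntegrable (fun φ => w φ • X φ) volume 0 π2 := by
          apply Continuous.intervalIntegrable; fun_prop
        have e1 : Λ * (∫ φ in (0 : ℝ)..π2, w φ • X φ) =
            ∫ φ in (0 : ℝ)..π2, Λ * (w φ • X φ) :=
          (ContinuousLinearMap.intervalIntegral_comp_comm
              (ContinuousLinearMap.mul ℂ (H →L[ℂ] H) Λ) i1).symm
        rw [e1]
        apply intervalIntegral.integral_congr
        intro φ _
        simp only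
        rw [mul_smul_comm]
      have hX1 : ∫ φ in (0 : ℝ)..π2, Λ * X φ = (π2 : ℂ) • Λ := by
        have e1 := hΛint (fun _ => 1) continuous_const
        simp only [one_smul] at e1
        have e2 := hTn 0
        simp only [pow_zero, one_smul] at e2
        rw [e1, e2, mul_smul_comm, mul_one]
      have hTn' : ∀ n : ℕ, ∫ φ in (0 : ℝ)..π2, z φ ^ n • (Λ * X φ) = (π2 : ℂ) • (Λ * T ^ n) := by
        intro n
        have e := hΛint (fun φ => z φ ^ n) (by fun_prop)
        rw [e, hTn, mul_smul_comm]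
      have hGn' : ∀ n : ℕ, ∫ φ in (0 : ℝ)..π2, star (z φ) ^ n • (Λ * X φ) =
          (π2 : ℂ) • (Λ * G n) := by
        intro n
        have e := hΛint (fun φ => star (z φ) ^ n) (by fun_prop)
        rw [e, hGn, mul_smul_comm]
      rw [int9 (hrec _ hΛXc a a) (hrec _ hΛXc b b) (hrec _ hΛXc c c) (hrec _ (hzk k) b a)
        (hrec _ (hwk k) a b) (hrec _ (hzk (k + 1)) c a) (hrec _ (hwk (k + 1)) a c)
        (hrec _ (hzk 1) c b) (hrec _ (hwk 1) b c),
        hre _ hΛXc, hre _ hΛXc, hre _ hΛXc, hre _ (hzk k), hre _ (hwk k), hre _ (hzk (k + 1)),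
        hre _ (hwk (k + 1)), hre _ (hzk 1), hre _ (hwk 1), hX1, hTn', hGn', hTn', hGn', hTn',
        hGn'] at h0
      have hs1 : ∀ (Y : H →L[ℂ] H) (v u : H), (inner ℂ v (((π2 : ℂ) • Y) u)).re =
          π2 * (inner ℂ v (Y u)).re := by
        intro Y v u
        rw [smul_apply, inner_smul_right, re_ofReal_mul]
      simp only [hs1] at h0
      have h1 : 0 ≤ π2 * ((inner ℂ a (Λ a)).re + (inner ℂ b (Λ b)).re + (inner ℂ c (Λ c)).re
          + ((inner ℂ b (Λ ((T ^ k) a))).re + (inner ℂ a (Λ (G k b))).re)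
          + ((inner ℂ c (Λ ((T ^ (k + 1)) a))).re + (inner ℂ a (Λ (G (k + 1) c))).re)
          + ((inner ℂ c (Λ ((T ^ 1) b))).re + (inner ℂ b (Λ (G 1 c))).re)) := by
        refine h0.trans (le_of_eq ?_)
        have em : ∀ (Y : H →L[ℂ] H) (u : H), (Λ * Y) u = Λ (Y u) := fun _ _ => rfl
        simp only [em]
        ring
      exact nonneg_of_mul_nonneg_right h1 hπ
    · refine le_trans ?_ (le_max_right _ _)
      exact (norm_mul_le _ _).trans (mul_le_mul (hTb n) (hGb (n + 1)) (norm_nonneg _) hK0)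
  · -- closure under the quadratic Moebius maps
    rintro T ⟨f, rfl, hz1⟩ a
    refine ⟨C (((1 + ‖a‖ ^ 2)⁻¹ : ℝ) : ℂ) * ((f - C a) * (1 + C ((starRingEnd ℂ) a) * f)), ?_, ?_⟩
    · simp only [map_mul, map_sub, map_add, map_one, aeval_C, Algebra.algebraMap_eq_smul_one,
        smul_mul_assoc, one_mul]
    · intro φ
      simp only [eval_mul, eval_C, eval_sub, eval_add, eval_one]
      rw [norm_mul, Complex.norm_real, Real.norm_of_nonneg (by positivity),
        inv_mul_le_iff₀ (by positivity), mul_one]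
      exact moebius_ineq a _ (hz1 φ)

end Pool.Agent.V110.QN
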