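import Pool.Agent.V110.QN.AssembleQ
import Pool.Agent.W753.CZ.Crouzeix

set_option autoImplicit false

open Set Filter Topology Complex Polynomial

namespace Pool.Agent.V110.QN

variable {H : Type*} [NormedAddCommGroup H] [InnerProductSpace ℂ H]

/-- The scaled `q`-numerical range of an operator. -/
def scaledRange (q : ℂ) (A : H →L[ℂ] H) : Set ℂ :=
  {w | ∃ x y : H, ‖x‖ = 1 ∧ ‖y‖ = 1 ∧ inner ℂ y x = q ∧ w = inner ℂ y (A x) / q}

/-- the convex function minimised over the centre -/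
noncomputable def Fc (A : H →L[ℂ] H) (q φ : ℝ) (c : ℂ) : ℝ :=
  (exp (-φ * I) * c).re + ‖A - c • (1 : H →L[ℂ] H)‖ / q

theorem exists_min [Nontrivial H] (A : H →L[ℂ] H) (q : ℝ) (hq0 : 0 < q) (hq1 : q < 1) (φ : ℝ) :
    ∃ c : ℂ, ‖c‖ ≤ 2 * ‖A‖ / (1 - q) ∧ ∀ c', Fc A q φ c ≤ Fc A q φ c' := by
  have h1q : 0 < 1 - q := by linarith
  set r0 := 2 * ‖A‖ / (1 - q) with hr0
  have hr0n : 0 ≤ r0 := by positivity
  have hcont : Continuous (Fc A q φ) := by unfold Fc; fun_prop
  obtain ⟨c, hc, hmin⟩ := (isCompact_closedBall (0 : ℂ) r0).exists_isMinOn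
    ⟨0, by simp [hr0n]⟩ hcont.continuousOn
  rw [mem_closedBall_zero_iff] at hc
  refine ⟨c, hc, fun c' => ?_⟩
  by_cases hc' : ‖c'‖ ≤ r0
  · exact hmin (by rw [mem_closedBall_zero_iff]; exact hc')
  · push Not at hc'
    have h0 : Fc A q φ c ≤ Fc A q φ 0 := hmin (by simp [hr0n])
    refine h0.trans ?_
    unfold Fc
    simp only [mul_zero, Complex.zero_re, zero_smul, sub_zero, zero_add]
    have e1 : ‖c'‖ - ‖A‖ ≤ ‖A - c' • (1 : H →L[ℂ] H)‖ := by
      have := norm_sub_norm_le (c' • (1 : H →L[ℂ] H)) A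
      rw [norm_smul, norm_one, mul_one, norm_sub_rev] at this
      exact this
    have e2 : -‖c'‖ ≤ (exp (-φ * I) * c').re := by
      have h := Complex.abs_re_le_norm (exp (-φ * I) * c')
      rw [norm_mul, Pool.Agent.W753.CZ.norm_exp', one_mul] at h
      exact (abs_le.mp h).1
    have e3 : (‖c'‖ - ‖A‖) / q ≤ ‖A - c' • (1 : H →L[ℂ] H)‖ / q := by gcongr
    have e4 : ‖A‖ / q ≤ -‖c'‖ + (‖c'‖ - ‖A‖) / q := by
      rw [hr0, div_lt_iff₀ h1q] at hc'
      have e5 : -‖c'‖ + (‖c'‖ - ‖A‖) / q = (-‖c'‖ * q + (‖c'‖ - ‖A‖)) / q := by field_simp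
      rw [e5]
      apply div_le_div_of_nonneg_right _ hq0.le
      nlinarith
    linarith

variable [FiniteDimensional ℂ H]

theorem exists_norming [Nontrivial H] (T : H →L[ℂ] H) : ∃ x : H, ‖x‖ = 1 ∧ ‖T x‖ = ‖T‖ := by
  haveI : ProperSpace H := FiniteDimensional.proper ℂ H
  obtain ⟨x0, hx0⟩ := exists_norm_eq H zero_le_one
  obtain ⟨x, hx, hmax⟩ := (isCompact_sphere (0 : H) 1).exists_isMaxOn
    ⟨x0, by simpa using hx0⟩ (f := fun x => ‖T x‖) (by fun_prop)
  rw [mem_sphere_zero_iff_norm] at hx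
  refine ⟨x, hx, le_antisymm ?_ ?_⟩
  · have := T.le_opNorm x
    rwa [hx, mul_one] at this
  · apply ContinuousLinearMap.opNorm_le_bound _ (norm_nonneg _)
    intro v
    by_cases hv : v = 0
    · simp [hv]
    have hn : ‖v‖ ≠ 0 := norm_ne_zero_iff.mpr hv
    have h1 : ‖T (((‖v‖⁻¹ : ℝ) : ℂ) • v)‖ ≤ ‖T x‖ := hmax (by
      rw [mem_sphere_zero_iff_norm, norm_smul, Complex.norm_real, norm_inv, norm_norm,
        inv_mul_cancel₀ hn])
    rw [map_smul, norm_smul, Complex.norm_real, norm_inv, norm_norm] at h1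
    rw [inv_mul_le_iff₀ (by positivity)] at h1
    linarith

/-- The first order condition at the minimiser, for one direction. -/
theorem first_order [Nontrivial H] (A : H →L[ℂ] H) (q : ℝ) (hq0 : 0 < q) (φ : ℝ) (c : ℂ)
    (hmin : ∀ c', Fc A q φ c ≤ Fc A q φ c') (d : ℂ) :
    ∃ x : H, ‖x‖ = 1 ∧ ‖(A - c • (1 : H →L[ℂ] H)) x‖ = ‖A - c • (1 : H →L[ℂ] H)‖ ∧
      ((starRingEnd ℂ) d * inner ℂ x ((A - c • (1 : H →L[ℂ] H)) x)).re ≤
        ((starRingEnd ℂ) d * (((q * ‖A - c • (1 : H →L[ℂ] H)‖ : ℝ) : ℂ) * exp (φ * I))).re := by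
  haveI : ProperSpace H := FiniteDimensional.proper ℂ H
  set B := A - c • (1 : H →L[ℂ] H) with hB
  set r := ‖B‖ with hr
  have hr0 : 0 ≤ r := norm_nonneg _
  set s : ℕ → ℝ := fun k => 1 / ((k : ℝ) + 1) with hs
  have hs0 : ∀ k, 0 < s k := fun k => by rw [hs]; positivity
  have hslim : Tendsto s atTop (𝓝 0) := tendsto_one_div_add_atTop_nhds_zero_nat
  choose x hx1 hx2 using fun k : ℕ => exists_norming (B - ((s k : ℂ) * d) • (1 : H →L[ℂ] H))
  obtain ⟨y, hy, g, hg, hlim⟩ := (isCompact_sphere (0 : H) 1).tendsto_subseq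
    (x := x) (fun k => by simpa using hx1 k)
  rw [mem_sphere_zero_iff_norm] at hy
  have hsg : Tendsto (fun k => s (g k)) atTop (𝓝 0) := hslim.comp hg.tendsto_atTop
  have hre : (exp (-φ * I) * d).re = ((starRingEnd ℂ) d * exp (φ * I)).re := by
    have e : (starRingEnd ℂ) ((starRingEnd ℂ) d * exp (φ * I)) = exp (-φ * I) * d := by
      rw [map_mul, Complex.conj_conj, ← Complex.exp_conj, map_mul, Complex.conj_I,
        Complex.conj_ofReal, mul_comm]
      ring_nf
    rw [← e, Complex.conj_re]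
  have hineq : ∀ k, ((starRingEnd ℂ) d * inner ℂ (x k) (B (x k))).re ≤
      r * q * ((starRingEnd ℂ) d * exp (φ * I)).re + s k * ‖d‖ ^ 2 / 2 := by
    intro k
    have hm := hmin (c + (s k : ℂ) * d)
    unfold Fc at hm
    have e1 : A - (c + (s k : ℂ) * d) • (1 : H →L[ℂ] H) = B - ((s k : ℂ) * d) • (1 : H →L[ℂ] H) := by
      rw [hB]; module
    rw [e1, ← hB, ← hr, mul_add, Complex.add_re] at hm
    have e2 : (exp (-φ * I) * ((s k : ℂ) * d)).re = s k * ((starRingEnd ℂ) d * exp (φ * I)).re := by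
      rw [mul_left_comm, Complex.re_ofReal_mul, hre]
    rw [e2] at hm
    set a := ‖B - ((s k : ℂ) * d) • (1 : H →L[ℂ] H)‖ with ha
    set t := ((starRingEnd ℂ) d * exp (φ * I)).re with ht
    have h1 : r - q * (s k * t) ≤ a := by
      have h2 : r / q ≤ s k * t + a / q := by linarith
      rw [div_le_iff₀ hq0] at h2
      have h3 : (s k * t + a / q) * q = q * (s k * t) + a := by field_simp
      linarith
    have h4 : r ^ 2 - 2 * r * (q * (s k * t)) ≤ a ^ 2 := by
      nlinarith [sq_nonneg (a - r)]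
    have h5 : a ^ 2 = ‖B (x k)‖ ^ 2 - 2 * (s k * ((starRingEnd ℂ) d * inner ℂ (x k) (B (x k))).re)
        + s k ^ 2 * ‖d‖ ^ 2 := by
      rw [ha, ← hx2 k]
      have e3 : (B - ((s k : ℂ) * d) • (1 : H →L[ℂ] H)) (x k) = B (x k) - ((s k : ℂ) * d) • x k := by
        simp
      rw [e3, norm_sub_sq (𝕜 := ℂ), inner_smul_right, norm_smul, hx1 k, mul_one, norm_mul,
        Complex.norm_real, Real.norm_eq_abs, mul_pow, sq_abs]
      have e4 : RCLike.re ((s k : ℂ) * d * inner ℂ (B (x k)) (x k)) =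
          s k * ((starRingEnd ℂ) d * inner ℂ (x k) (B (x k))).re := by
        rw [← inner_conj_symm (B (x k)) (x k)]
        have e5 : (starRingEnd ℂ) ((starRingEnd ℂ) d * inner ℂ (x k) (B (x k))) =
            d * (starRingEnd ℂ) (inner ℂ (x k) (B (x k))) := by
          rw [map_mul, Complex.conj_conj]
        rw [mul_assoc, ← e5]
        change (((s k : ℂ) * (starRingEnd ℂ) ((starRingEnd ℂ) d * inner ℂ (x k) (B (x k)))) : ℂ).re = _
        rw [Complex.re_ofReal_mul, Complex.conj_re]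
      rw [e4]
    have h6 : ‖B (x k)‖ ≤ r := by
      have := B.le_opNorm (x k)
      rwa [hx1 k, mul_one] at this
    have h7 : ‖B (x k)‖ ^ 2 ≤ r ^ 2 := pow_le_pow_left₀ (norm_nonneg _) h6 2
    have h8 : s k * ((starRingEnd ℂ) d * inner ℂ (x k) (B (x k))).re ≤
        s k * (r * q * t + s k * ‖d‖ ^ 2 / 2) := by nlinarith
    exact le_of_mul_le_mul_left h8 (hs0 k)
  refine ⟨y, hy, ?_, ?_⟩
  · have l1 : Tendsto (fun k => ‖(B - ((s (g k) : ℂ) * d) • (1 : H →L[ℂ] H)) (x (g k))‖) atTop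
        (𝓝 ‖B y‖) := by
      have e : ∀ k, (B - ((s (g k) : ℂ) * d) • (1 : H →L[ℂ] H)) (x (g k)) =
          B (x (g k)) - ((s (g k) : ℂ) * d) • x (g k) := fun k => by simp
      simp only [e]
      have l2 : Tendsto (fun k => B (x (g k)) - ((s (g k) : ℂ) * d) • x (g k)) atTop
          (𝓝 (B y - (((0 : ℝ) : ℂ) * d) • y)) := by
        apply Tendsto.sub
        · exact (B.continuous.tendsto y).comp hlim
        · apply Tendsto.smul _ hlim
          exact ((Complex.continuous_ofReal.tendsto 0).comp hsg).mul_const d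
      have l3 := l2.norm
      simpa using l3
    have l4 : Tendsto (fun k => ‖B - ((s (g k) : ℂ) * d) • (1 : H →L[ℂ] H)‖) atTop (𝓝 r) := by
      have l5 : Tendsto (fun k => B - ((s (g k) : ℂ) * d) • (1 : H →L[ℂ] H)) atTop
          (𝓝 (B - (((0 : ℝ) : ℂ) * d) • (1 : H →L[ℂ] H))) := by
        apply Tendsto.sub tendsto_const_nhds
        apply Tendsto.smul_const
        exact ((Complex.continuous_ofReal.tendsto 0).comp hsg).mul_const d
      have l6 := l5.norm
      simpa using l6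
    have l7 : (fun k => ‖(B - ((s (g k) : ℂ) * d) • (1 : H →L[ℂ] H)) (x (g k))‖) =
        (fun k => ‖B - ((s (g k) : ℂ) * d) • (1 : H →L[ℂ] H)‖) := by
      funext k; exact hx2 (g k)
    rw [l7] at l1
    exact tendsto_nhds_unique l1 l4
  · have l1 : Tendsto (fun k => ((starRingEnd ℂ) d * inner ℂ (x (g k)) (B (x (g k)))).re) atTop
        (𝓝 ((starRingEnd ℂ) d * inner ℂ y (B y)).re) := by
      have hc : Continuous (fun z : H => ((starRingEnd ℂ) d * inner ℂ z (B z)).re) := by fun_prop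
      exact (hc.tendsto y).comp hlim
    have l2 : Tendsto (fun k => r * q * ((starRingEnd ℂ) d * exp (φ * I)).re +
        s (g k) * ‖d‖ ^ 2 / 2) atTop (𝓝 (r * q * ((starRingEnd ℂ) d * exp (φ * I)).re +
        0 * ‖d‖ ^ 2 / 2)) := by
      apply Tendsto.add tendsto_const_nhds
      exact (hsg.mul_const _).div_const _
    have l3 := le_of_tendsto_of_tendsto' l1 l2 (fun k => hineq (g k))
    have e : ((starRingEnd ℂ) d * (((q * r : ℝ) : ℂ) * exp (φ * I))).re =
        r * q * ((starRingEnd ℂ) d * exp (φ * I)).re := by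
      rw [mul_left_comm, Complex.re_ofReal_mul]; ring
    rw [e]
    simpa using l3

/-- the values `⟨x, Bx⟩` on the unit vectors at which `B` attains its norm -/
def topVals (B : H →L[ℂ] H) : Set ℂ := {z | ∃ x : H, ‖x‖ = 1 ∧ ‖B x‖ = ‖B‖ ∧ inner ℂ x (B x) = z}

theorem topVals_compact (B : H →L[ℂ] H) : IsCompact (topVals B) := by
  haveI : ProperSpace H := FiniteDimensional.proper ℂ H
  have h1 : IsCompact (Metric.sphere (0 : H) 1 ∩ {x | ‖B x‖ = ‖B‖}) :=
    (isCompact_sphere (0 : H) 1).inter_right (isClosed_eq (by fun_prop) continuous_const)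
  have h2 : topVals B = (fun x => inner ℂ x (B x)) '' (Metric.sphere (0 : H) 1 ∩ {x | ‖B x‖ = ‖B‖}) := by
    ext z
    constructor
    · rintro ⟨x, hx, hx2, rfl⟩
      exact ⟨x, ⟨by simpa using hx, hx2⟩, rfl⟩
    · rintro ⟨x, ⟨hx, hx2⟩, rfl⟩
      exact ⟨x, by simpa using hx, hx2, rfl⟩
  rw [h2]
  exact h1.image (by fun_prop)

theorem topVals_convex (B : H →L[ℂ] H) : Convex ℝ (topVals B) := by
  haveI : CompleteSpace H := FiniteDimensional.complete ℂ H
  set r := ‖B‖ with hr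
  have hr0 : 0 ≤ r := norm_nonneg _
  set G : H →L[ℂ] H := ((r ^ 2 : ℝ) : ℂ) • (1 : H →L[ℂ] H) - (ContinuousLinearMap.adjoint B) * B with hG
  set E : Submodule ℂ H := LinearMap.ker (G : H →ₗ[ℂ] H) with hE
  have hself : ∀ u : H, inner ℂ u u = ((‖u‖ ^ 2 : ℝ) : ℂ) := by
    intro u
    rw [inner_self_eq_norm_sq_to_K]; push_cast; rfl
  have hGin : ∀ u v : H, inner ℂ u (G v) = ((r ^ 2 : ℝ) : ℂ) * inner ℂ u v - inner ℂ (B u) (B v) := by
    intro u v
    have e : G v = ((r ^ 2 : ℝ) : ℂ) • v - (ContinuousLinearMap.adjoint B) (B v) := rfl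
    rw [e, inner_sub_right, inner_smul_right, ContinuousLinearMap.adjoint_inner_right]
  have hGnn : ∀ u : H, 0 ≤ (inner ℂ u (G u)).re := by
    intro u
    rw [hGin, hself, hself, ← Complex.ofReal_mul, ← Complex.ofReal_sub, Complex.ofReal_re]
    have h1 := B.le_opNorm u
    have h2 : ‖B u‖ ^ 2 ≤ (r * ‖u‖) ^ 2 := pow_le_pow_left₀ (norm_nonneg _) h1 2
    nlinarith
  -- vectors attaining the norm are in the kernel
  have hker : ∀ u : H, ‖B u‖ = r * ‖u‖ → G u = 0 := by
    intro u hu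
    have h0 : (inner ℂ u (G u)).re = 0 := by
      rw [hGin, hself, hself, ← Complex.ofReal_mul, ← Complex.ofReal_sub, Complex.ofReal_re, hu]
      ring
    -- Cauchy–Schwarz for the semidefinite form
    have hcs : ∀ v : H, (inner ℂ v (G u)).re = 0 := by
      intro v
      have hq : ∀ t : ℝ, 0 ≤ 2 * t * (inner ℂ v (G u)).re + t ^ 2 * (inner ℂ v (G v)).re := by
        intro t
        have h1 := hGnn (u + (t : ℂ) • v)
        have hsym : (inner ℂ u (G v)).re = (inner ℂ v (G u)).re := by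
          rw [hGin, hGin, ← inner_conj_symm u v, ← inner_conj_symm (B u) (B v), Complex.sub_re,
            Complex.sub_re, Complex.re_ofReal_mul, Complex.re_ofReal_mul, Complex.conj_re,
            Complex.conj_re]
        have e1 : (inner ℂ (u + (t : ℂ) • v) (G (u + (t : ℂ) • v))).re =
            (inner ℂ u (G u)).re + t * (inner ℂ u (G v)).re + (t * (inner ℂ v (G u)).re +
              t * (t * (inner ℂ v (G v)).re)) := by
          rw [map_add, map_smul, inner_add_left, inner_add_right, inner_add_right,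
            inner_smul_left, inner_smul_left, inner_smul_right, inner_smul_right,
            Complex.conj_ofReal, Complex.add_re, Complex.add_re, Complex.add_re,
            Complex.re_ofReal_mul, Complex.re_ofReal_mul, Complex.re_ofReal_mul,
            Complex.re_ofReal_mul]
        rw [e1, h0, hsym] at h1
        nlinarith
      set β := (inner ℂ v (G u)).re
      set γ := (inner ℂ v (G v)).re
      have hγ : 0 ≤ γ := hGnn v
      by_contra hne
      have h2 := hq (-β / (γ + 1))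
      have h3 : 2 * (-β / (γ + 1)) * β + (-β / (γ + 1)) ^ 2 * γ = -(β ^ 2 * (γ + 2)) / (γ + 1) ^ 2 := by
        field_simp; ring
      rw [h3] at h2
      have h4 : 0 < β ^ 2 * (γ + 2) / (γ + 1) ^ 2 := by positivity
      rw [neg_div] at h2
      linarith
    have h5 := hcs (G u)
    rw [hself, Complex.ofReal_re] at h5
    exact norm_eq_zero.mp (pow_eq_zero_iff two_ne_zero |>.mp h5)
  have hker' : ∀ u : H, G u = 0 → ‖B u‖ = r * ‖u‖ := by
    intro u hu
    have h1 := hGin u u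
    rw [hu, inner_zero_right, hself, hself, ← Complex.ofReal_mul, ← Complex.ofReal_sub] at h1
    have h2 : (0 : ℝ) = r ^ 2 * ‖u‖ ^ 2 - ‖B u‖ ^ 2 := by exact_mod_cast h1
    have h3 : ‖B u‖ ^ 2 = (r * ‖u‖) ^ 2 := by rw [mul_pow]; linarith
    rw [← abs_of_nonneg (norm_nonneg (B u)), ← abs_of_nonneg (mul_nonneg hr0 (norm_nonneg u))]
    exact (sq_eq_sq_iff_abs_eq_abs _ _).mp h3
  have hTH := H640R2.PhaseMu.toeplitz_hausdorff
    ((ContinuousLinearMap.adjoint E.subtypeL) ∘L B ∘L E.subtypeL)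
  have hset : topVals B = {z : ℂ | ∃ x : E, ‖x‖ = 1 ∧
      inner ℂ x (((ContinuousLinearMap.adjoint E.subtypeL) ∘L B ∘L E.subtypeL) x) = z} := by
    ext z
    constructor
    · rintro ⟨x, hx, hx2, rfl⟩
      have hxE : x ∈ E := by
        rw [hE, LinearMap.mem_ker]
        exact hker x (by rw [hx2, hx, mul_one])
      refine ⟨⟨x, hxE⟩, hx, ?_⟩
      change inner ℂ (⟨x, hxE⟩ : E) ((ContinuousLinearMap.adjoint E.subtypeL) (B x)) = _
      rw [ContinuousLinearMap.adjoint_inner_right]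
      rfl
    · rintro ⟨x, hx, rfl⟩
      refine ⟨(x : H), hx, ?_, ?_⟩
      · have h1 : G (x : H) = 0 := LinearMap.mem_ker.mp x.2
        have h2 := hker' _ h1
        have h3 : ‖(x : H)‖ = 1 := hx
        rw [h2, h3, mul_one]
      · change _ = inner ℂ x ((ContinuousLinearMap.adjoint E.subtypeL) (B x))
        rw [ContinuousLinearMap.adjoint_inner_right]
        rfl
  rw [hset]
  exact hTH

/-- The vector at the minimiser. -/
theorem exists_vec [Nontrivial H] (A : H →L[ℂ] H) (q : ℝ) (hq0 : 0 < q) (φ : ℝ) (c : ℂ)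
    (hmin : ∀ c', Fc A q φ c ≤ Fc A q φ c') :
    ((q * ‖A - c • (1 : H →L[ℂ] H)‖ : ℝ) : ℂ) * exp (φ * I) ∈
      topVals (A - c • (1 : H →L[ℂ] H)) := by
  set B := A - c • (1 : H →L[ℂ] H) with hB
  set w0 := ((q * ‖B‖ : ℝ) : ℂ) * exp (φ * I) with hw0
  have hcomp := topVals_compact B
  have hconv := topVals_convex B
  have hne : (topVals B).Nonempty := by
    obtain ⟨x, hx1, hx2, -⟩ := first_order A q hq0 φ c hmin 0
    exact ⟨_, x, hx1, hx2, rfl⟩
  obtain ⟨v, hv, hvmin⟩ := exists_norm_eq_iInf_of_complete_convex (F := ℂ) hne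
    hcomp.isClosed.isComplete hconv w0
  rw [norm_eq_iInf_iff_real_inner_le_zero hconv hv] at hvmin
  by_cases h0 : w0 - v = 0
  · rw [sub_eq_zero.mp h0]; exact hv
  exfalso
  obtain ⟨x, hx1, hx2, hx3⟩ := first_order A q hq0 φ c hmin (-(w0 - v))
  rw [← hB, ← hw0] at hx3
  have h1 := hvmin (inner ℂ x (B x)) ⟨x, hx1, hx2, rfl⟩
  rw [Complex.inner, mul_comm] at h1
  have h2 : ((starRingEnd ℂ) (w0 - v) * (inner ℂ x (B x) - v)).re ≤ 0 := by
    exact h1
  rw [map_neg, neg_mul, neg_mul, Complex.neg_re, Complex.neg_re] at hx3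
  rw [mul_sub, Complex.sub_re] at h2
  have h3 : ((starRingEnd ℂ) (w0 - v) * (w0 - v)).re = ‖w0 - v‖ ^ 2 := by
    rw [mul_comm, Complex.mul_conj, Complex.ofReal_re, Complex.normSq_eq_norm_sq]
  rw [mul_sub, Complex.sub_re] at h3
  have h4 : 0 < ‖w0 - v‖ ^ 2 := by
    have := norm_pos_iff.mpr h0
    positivity
  linarith

variable [CompleteSpace H]

/-- The bound for a nonscalar operator and `0 < q < 1`. -/
theorem bound_nonscalar [Nontrivial H] (A : H →L[ℂ] H) (hA : ∀ c : ℂ, A ≠ c • (1 : H →L[ℂ] H))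
    (q : ℝ) (hq0 : 0 < q) (hq1 : q < 1) (p : ℂ[X]) (M : ℝ)
    (hM : ∀ w ∈ scaledRange (q : ℂ) A, ‖p.eval w‖ ≤ M) :
    ‖aeval A p‖ ≤ max 1 (2 * q / (1 + √(1 - q ^ 2))) * M := by
  have h1q : 0 < 1 - q := by linarith
  choose c hcn hcmin using fun φ => exists_min A q hq0 hq1 φ
  set r0 := 2 * ‖A‖ / (1 - q) with hr0
  have hqc : (q : ℂ) ≠ 0 := by exact_mod_cast hq0.ne'
  apply assemble A q hq0 hq1 ((‖A‖ + r0) / q) c (fun φ => ‖A - c φ • (1 : H →L[ℂ] H)‖ / q)
    (scaledRange (q : ℂ) A) (fun φ => by positivity) (fun φ => ?_) (fun φ => ?_) (fun φ => ?_)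
    (fun φ w hw => ?_) p M hM
  · apply div_le_div_of_nonneg_right _ hq0.le
    refine (norm_sub_le _ _).trans ?_
    rw [norm_smul, norm_one, mul_one]
    linarith [hcn φ]
  · apply le_of_eq; field_simp
  · obtain ⟨x, hx1, hx2, hx3⟩ := exists_vec A q hq0 φ (c φ) (hcmin φ)
    set B := A - c φ • (1 : H →L[ℂ] H) with hB
    have hBn : ‖B‖ ≠ 0 := by
      rw [norm_ne_zero_iff, hB]
      exact sub_ne_zero.mpr (hA (c φ))
    have hBc : (‖B‖ : ℂ) ≠ 0 := by exact_mod_cast hBn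
    set y : H := (exp (-φ * I) / ‖B‖) • B x with hy
    have hyn : ‖y‖ = 1 := by
      rw [hy, norm_smul, norm_div, Pool.Agent.W753.CZ.norm_exp', Complex.norm_real, norm_norm, hx2]
      field_simp
    have hconj : (starRingEnd ℂ) (exp (-φ * I) / ‖B‖) = exp (φ * I) / ‖B‖ := by
      rw [map_div₀, Complex.conj_ofReal, ← Complex.exp_conj, map_mul, Complex.conj_I, map_neg,
        Complex.conj_ofReal]
      ring_nf
    have hyx : inner ℂ y x = (q : ℂ) := by
      rw [hy, inner_smul_left, hconj, ← inner_conj_symm, hx3, map_mul, Complex.conj_ofReal,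
        ← Complex.exp_conj, map_mul, Complex.conj_I, Complex.conj_ofReal]
      have : (φ : ℂ) * -I = -φ * I := by ring
      rw [this]
      have e2 : exp (φ * I) / ‖B‖ * (((q * ‖B‖ : ℝ) : ℂ) * exp (-φ * I)) =
          (exp (-φ * I) * exp (φ * I)) * (q * (‖B‖ / ‖B‖)) := by push_cast; ring
      rw [e2, exp_cancel, div_self hBc]
      ring
    have hyB : inner ℂ y (B x) = exp (φ * I) * ‖B‖ := by
      rw [hy, inner_smul_left, hconj, inner_self_eq_norm_sq_to_K, hx2]
      have : (RCLike.ofReal ‖B‖ : ℂ) = (‖B‖ : ℂ) := rfl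
      rw [this]
      field_simp
    refine ⟨x, y, hx1, hyn, hyx, ?_⟩
    have hAx : A x = B x + c φ • x := by rw [hB]; simp
    rw [hAx, inner_add_right, inner_smul_right, hyx, hyB]
    push_cast
    field_simp
    ring
  · obtain ⟨x, y, hx, hy, hyx, rfl⟩ := hw
    set B := A - c φ • (1 : H →L[ℂ] H) with hB
    have hAx : A x = B x + c φ • x := by rw [hB]; simp
    have e : inner ℂ y (A x) / q - c φ = inner ℂ y (B x) / q := by
      rw [hAx, inner_add_right, inner_smul_right, hyx]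
      field_simp
      ring
    rw [e, norm_div, Complex.norm_real, Real.norm_of_nonneg hq0.le]
    apply div_le_div_of_nonneg_right _ hq0.le
    calc ‖inner ℂ y (B x)‖ ≤ ‖y‖ * ‖B x‖ := norm_inner_le_norm _ _
      _ ≤ ‖y‖ * (‖B‖ * ‖x‖) := by gcongr; exact B.le_opNorm x
      _ = ‖B‖ := by rw [hy, hx]; ring

/-- `Ω_q = Ω_{|q|}` (the inclusion we need). -/
theorem scaledRange_abs (A : H →L[ℂ] H) (q : ℂ) (hq0 : q ≠ 0) :
    scaledRange ((‖q‖ : ℝ) : ℂ) A ⊆ scaledRange q A := by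
  rintro w ⟨x, y, hx, hy, hyx, rfl⟩
  have hn : (‖q‖ : ℂ) ≠ 0 := by exact_mod_cast (norm_ne_zero_iff.mpr hq0)
  have hc : (starRingEnd ℂ) ((starRingEnd ℂ) (q / ‖q‖)) = q / ‖q‖ := Complex.conj_conj _
  refine ⟨x, (starRingEnd ℂ) (q / ‖q‖) • y, hx, ?_, ?_, ?_⟩
  · rw [norm_smul, RCLike.norm_conj, norm_div, Complex.norm_real, norm_norm,
      div_self (norm_ne_zero_iff.mpr hq0), hy, one_mul]
  · rw [inner_smul_left, hc, hyx]
    field_simp
  · rw [inner_smul_left, hc]
    field_simp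

/-- The range at `|q| = 1` contains the numerical range. -/
theorem numRange_subset (A : H →L[ℂ] H) (q : ℂ) (hq : ‖q‖ = 1) :
    Pool.Agent.W753.CZ.numRange A ⊆ scaledRange q A := by
  rintro w ⟨x, hx, rfl⟩
  have hq0 : q ≠ 0 := by
    intro h; rw [h, norm_zero] at hq; exact zero_ne_one hq
  refine ⟨x, (starRingEnd ℂ) q • x, hx, ?_, ?_, ?_⟩
  · rw [norm_smul, RCLike.norm_conj, hq, hx, one_mul]
  · rw [inner_smul_left, Complex.conj_conj, inner_self_eq_norm_sq_to_K, hx]
    simp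
  · rw [inner_smul_left, Complex.conj_conj]
    field_simp

/-- The whole bound on a finite dimensional space of dimension at least two (or `|q| = 1`). -/
theorem bound_all [Nontrivial H] (A : H →L[ℂ] H) (q : ℂ) (hq0 : 0 < ‖q‖) (hq1 : ‖q‖ ≤ 1)
    (hne : (scaledRange q A).Nonempty) (p : ℂ[X]) (M : ℝ)
    (hM : ∀ w ∈ scaledRange q A, ‖p.eval w‖ ≤ M) :
    ‖aeval A p‖ ≤ max 1 (2 * ‖q‖ / (1 + √(1 - ‖q‖ ^ 2))) * M := by
  have hq : q ≠ 0 := norm_pos_iff.mp hq0
  rcases hq1.eq_or_lt with h1 | h1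
  · have h2 := Pool.Agent.W753.CZ.crouzeix_bound A p M
      (fun w hw => hM w (numRange_subset A q h1 hw))
    rw [h1]
    norm_num
    exact h2
  · by_cases hA : ∀ c : ℂ, A ≠ c • (1 : H →L[ℂ] H)
    · exact bound_nonscalar A hA ‖q‖ hq0 h1 p M
        (fun w hw => hM w (scaledRange_abs A q hq hw))
    · push Not at hA
      obtain ⟨c, rfl⟩ := hA
      obtain ⟨w, x, y, hx, hy, hyx, hw⟩ := hne
      have hwc : w = c := by
        rw [hw]
        simp only [smul_apply, one_apply_eq_self, inner_smul_right, hyx]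
        field_simp
      have h2 := hM w ⟨x, y, hx, hy, hyx, hw⟩
      rw [hwc] at h2
      have h3 : aeval (c • (1 : H →L[ℂ] H)) p = (p.eval c) • (1 : H →L[ℂ] H) := by
        have : c • (1 : H →L[ℂ] H) = algebraMap ℂ _ c := (Algebra.algebraMap_eq_smul_one c).symm
        rw [this, aeval_algebraMap_apply, ← Algebra.algebraMap_eq_smul_one]
        simp
      rw [h3, norm_smul, norm_one, mul_one]
      have hM0 : 0 ≤ M := (norm_nonneg _).trans h2
      calc ‖p.eval c‖ ≤ 1 * M := by rw [one_mul]; exact h2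
        _ ≤ _ := by gcongr; exact le_max_left _ _

end Pool.Agent.V110.QN
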